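import Pool.Agent.K1H53.BI.Plan

/-!
# Elementary lemmas for the piece FIN
-/

set_option autoImplicit false

open scoped ENNReal
open Finset

namespace Pool.Agent.K1H53.BI

theorem ind_yes {α : Type} {P : α → Prop} {a : α} (h : P a) : ind P a = 1 := if_pos h

theorem ind_no {α : Type} {P : α → Prop} {a : α} (h : ¬ P a) : ind P a = 0 := if_neg h

theorem ind_le {α : Type} (P : α → Prop) (a : α) {x : ℝ≥0∞} (h : P a → 1 ≤ x) : ind P a ≤ x := by
  by_cases hP : P a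
  · rw [ind_yes hP]; exact h hP
  · rw [ind_no hP]; exact zero_le

theorem ind_mono {α : Type} (p : PMF α) (P Q : α → Prop) (h : ∀ a, p a ≠ 0 → P a → Q a) :
    Ex p (ind P) ≤ Ex p (ind Q) := by
  refine Ex_mono p fun a ha => ?_
  have := h a ha
  unfold ind
  split_ifs <;> simp_all

theorem ind_le_two {α : Type} (p : PMF α) (P Q₁ Q₂ : α → Prop) (h : ∀ a, P a → Q₁ a ∨ Q₂ a) :
    Ex p (ind P) ≤ Ex p (ind Q₁) + Ex p (ind Q₂) := by
  rw [← Ex_add]
  refine Ex_mono p fun a _ => ?_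
  have := h a
  unfold ind
  split_ifs <;> simp_all

theorem ind_le_one {α : Type} (p : PMF α) (P : α → Prop) : Ex p (ind P) ≤ 1 := by
  refine le_trans (Ex_mono p fun a _ => ?_) (Ex_const p 1).le
  unfold ind
  split_ifs <;> simp

theorem ind_add_not {α : Type} (p : PMF α) (P : α → Prop) :
    Ex p (ind P) + Ex p (ind fun a => ¬ P a) = 1 := by
  rw [← Ex_add, ← Ex_const p 1]
  refine Ex_congr p fun a _ => ?_
  unfold ind
  split_ifs <;> simp_all

theorem tri {X q e : ℝ≥0∞} {θ c₃ : ℝ} (h : ENNReal.ofReal c₃ ≤ X + q + e)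
    (hq : q ≤ ENNReal.ofReal θ) (he : e ≤ ENNReal.ofReal θ) (hθ : 0 ≤ θ) (hc : 3 * θ ≤ c₃) :
    ENNReal.ofReal θ ≤ X := by
  by_contra hX
  push Not at hX
  have h1 : X + q + e < ENNReal.ofReal θ + ENNReal.ofReal θ + ENNReal.ofReal θ := by
    have h2 : X + q < ENNReal.ofReal θ + ENNReal.ofReal θ :=
      ENNReal.add_lt_add_of_lt_of_le (ne_top_of_le_ne_top ENNReal.ofReal_ne_top hq) hX hq
    exact ENNReal.add_lt_add_of_lt_of_le (ne_top_of_le_ne_top ENNReal.ofReal_ne_top he) h2 he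
  rw [← ENNReal.ofReal_add hθ hθ, ← ENNReal.ofReal_add (by positivity) hθ] at h1
  exact absurd (h.trans_lt h1) (not_lt.2 (ENNReal.ofReal_le_ofReal (by linarith)))

theorem rad_nonneg (t : ℕ) : 0 ≤ rad t := by unfold rad; positivity

theorem rad_cube (t : ℕ) : 4 * Real.pi / 3 * rad t ^ 3 = t := by
  unfold rad
  have h0 : (0 : ℝ) ≤ 3 * t / (4 * Real.pi) := by positivity
  rw [← Real.rpow_natCast, ← Real.rpow_mul h0]
  norm_num

theorem rad_large (K : ℝ) : ∃ T₀ : ℕ, ∀ T : ℕ, T₀ ≤ T → K ≤ rad T := by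
  obtain ⟨T₀, hT₀⟩ := exists_nat_ge (4 * Real.pi / 3 * |K| ^ 3)
  refine ⟨T₀, fun T hT => ?_⟩
  by_contra hc
  push Not at hc
  have h1 := rad_cube T
  have h2 : rad T < |K| := lt_of_lt_of_le hc (le_abs_self K)
  have h3 : rad T ^ 3 < |K| ^ 3 := pow_lt_pow_left₀ h2 (rad_nonneg T) (by norm_num)
  have h4 : (T₀ : ℝ) ≤ T := by exact_mod_cast hT
  have h5 := Real.pi_pos
  have h6 : 4 * Real.pi / 3 * rad T ^ 3 < 4 * Real.pi / 3 * |K| ^ 3 :=
    mul_lt_mul_of_pos_left h3 (by positivity)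
  linarith

/-- The set in the definition of `devO` is not empty. -/
theorem devO_nonempty (t : ℕ) (A : Finset V) :
    {δ : ℝ | 0 ≤ δ ∧ ∀ z ∈ A, nrm z < rad t + δ}.Nonempty := by
  refine ⟨∑ z ∈ A, nrm z + 1, ?_, fun z hz => ?_⟩
  · have : 0 ≤ ∑ z ∈ A, nrm z := Finset.sum_nonneg fun z _ => Real.sqrt_nonneg _
    linarith
  · have h1 : nrm z ≤ ∑ z ∈ A, nrm z :=
      Finset.single_le_sum (f := nrm) (fun z _ => Real.sqrt_nonneg _) hz
    have := rad_nonneg t
    linarith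

theorem devI_nonempty (t : ℕ) (A : Finset V) :
    {δ : ℝ | 0 ≤ δ ∧ ∀ z : V, nrm z < rad t - δ → z ∈ A}.Nonempty := by
  refine ⟨rad t, rad_nonneg t, fun z hz => ?_⟩
  have : 0 ≤ nrm z := Real.sqrt_nonneg _
  linarith

/-- Outside the large ball the outer deviation is large. -/
theorem devO_of_not_In {T R : ℕ} (hR : 2 * rad T ≤ R) {s : St} (h : ¬ In R s) :
    rad T ≤ devO T s.A := by
  unfold In at h
  push Not at h
  obtain ⟨z, hz, hz2⟩ := h
  refine le_csInf (devO_nonempty T s.A) fun δ hδ => ?_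
  have h1 := hδ.2 z hz
  have h2 : (R : ℝ) < nrm z := by
    unfold nrm
    rw [Real.lt_sqrt (Nat.cast_nonneg R)]
    exact_mod_cast hz2
  linarith

/-- A large aggregate has a large outer deviation. -/
theorem devO_of_card (hB : S_BALL) {T : ℕ} {A : Finset V} {d : ℝ} (hd : 0 ≤ d)
    (h : 4 * Real.pi / 3 * (rad T + d + 1) ^ 3 < A.card) : d ≤ devO T A := by
  refine le_csInf (devO_nonempty T A) fun δ hδ => ?_
  by_contra hc
  push Not at hc
  have h1 := hB.1 (rad T + d) A (by have := rad_nonneg T; linarith)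
    (fun z hz => lt_trans (hδ.2 z hz) (by linarith))
  linarith

/-- A small aggregate has a large inner deviation. -/
theorem devI_of_card (hB : S_BALL) {T : ℕ} {A : Finset V} {d : ℝ} (hd : 1 ≤ rad T - d)
    (h : (A.card : ℝ) < 4 * Real.pi / 3 * (rad T - d - 1) ^ 3) : d ≤ devI T A := by
  refine le_csInf (devI_nonempty T A) fun δ hδ => ?_
  by_contra hc
  push Not at hc
  have h1 := hB.2 (rad T - d) A hd (fun z hz => hδ.2 z (by linarith))
  linarith

theorem num_up {r c κ : ℝ} (hr : 1 ≤ r) (hc : 0 < c) (hcκ : c ≤ κ / 120) (hc2 : c ≤ 1 / 2)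
    (h1 : 1 ≤ c * Real.sqrt r) :
    4 * Real.pi / 3 * (r + c * Real.sqrt r + 1) ^ 3 <
      4 * Real.pi / 3 * r ^ 3 + κ * (r ^ 2 * Real.sqrt r) := by
  set q := Real.sqrt r with hq
  have hq1 : 1 ≤ q := by
    rw [hq]; exact Real.one_le_sqrt.2 hr
  have hqr : q ≤ r := by
    have : q * q = r := Real.mul_self_sqrt (by linarith)
    nlinarith
  set d := c * q + 1 with hd
  have hd0 : 0 ≤ d := by positivity
  have hd1 : d ≤ 2 * (c * q) := by linarith
  have hd2 : d ≤ r := by nlinarith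
  have h2 : (r + c * q + 1) ^ 3 ≤ r ^ 3 + 7 * (r ^ 2 * d) := by
    have e1 : r + c * q + 1 = r + d := by rw [hd]; ring
    rw [e1]
    have e2 : d ^ 2 ≤ r * d := by nlinarith
    have e3 : d ^ 3 ≤ r ^ 2 * d := by
      have : d ^ 2 ≤ r ^ 2 := pow_le_pow_left₀ hd0 hd2 2
      nlinarith
    nlinarith
  have hp : Real.pi < 3.15 := Real.pi_lt_d2
  have hp0 := Real.pi_pos
  have h3 : 4 * Real.pi / 3 * (r + c * q + 1) ^ 3 ≤
      4 * Real.pi / 3 * (r ^ 3 + 7 * (r ^ 2 * d)) :=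
    mul_le_mul_of_nonneg_left h2 (by positivity)
  have h4 : 4 * Real.pi / 3 * (7 * (r ^ 2 * d)) < κ * (r ^ 2 * q) := by
    have hr2 : 0 < r ^ 2 * q := by positivity
    have h5 : r ^ 2 * d ≤ r ^ 2 * (2 * (c * q)) := mul_le_mul_of_nonneg_left hd1 (by positivity)
    have h6 : 4 * Real.pi / 3 * (7 * (r ^ 2 * d)) ≤ 4.2 * (7 * (r ^ 2 * (2 * (c * q)))) := by
      apply mul_le_mul _ (by linarith) (by positivity) (by norm_num)
      linarith
    have h7 : 4.2 * (7 * (r ^ 2 * (2 * (c * q)))) = 58.8 * c * (r ^ 2 * q) := by ring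
    have h8 : 58.8 * c * (r ^ 2 * q) < κ * (r ^ 2 * q) := by
      apply mul_lt_mul_of_pos_right _ hr2
      linarith
    linarith
  linarith

theorem num_down {r c κ : ℝ} (hr : 2 ≤ r) (hc : 0 < c) (hcκ : c ≤ κ / 120) (hc2 : c ≤ 1 / 2)
    (h1 : 1 ≤ c * Real.sqrt r) :
    4 * Real.pi / 3 * r ^ 3 - κ * (r ^ 2 * Real.sqrt r) <
      4 * Real.pi / 3 * (r - c * Real.sqrt r - 1) ^ 3 ∧ 1 ≤ r - c * Real.sqrt r := by
  set q := Real.sqrt r with hq
  have hq1 : 1 ≤ q := by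
    rw [hq]; exact Real.one_le_sqrt.2 (by linarith)
  have hqr : q ≤ r := by
    have : q * q = r := Real.mul_self_sqrt (by linarith)
    nlinarith
  set d := c * q + 1 with hd
  have hd0 : 0 ≤ d := by positivity
  have hd1 : d ≤ 2 * (c * q) := by linarith
  have hd2 : d ≤ r := by nlinarith
  have h2 : r ^ 3 - 3 * (r ^ 2 * d) ≤ (r - c * q - 1) ^ 3 := by
    have e1 : r - c * q - 1 = r - d := by rw [hd]; ring
    rw [e1]
    have e2 : 0 ≤ d ^ 2 * (3 * r - d) := by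
      have : 0 ≤ 3 * r - d := by linarith
      positivity
    nlinarith
  have hp : Real.pi < 3.15 := Real.pi_lt_d2
  have hp0 := Real.pi_pos
  have h3 : 4 * Real.pi / 3 * (r ^ 3 - 3 * (r ^ 2 * d)) ≤
      4 * Real.pi / 3 * (r - c * q - 1) ^ 3 :=
    mul_le_mul_of_nonneg_left h2 (by positivity)
  have h4 : 4 * Real.pi / 3 * (3 * (r ^ 2 * d)) < κ * (r ^ 2 * q) := by
    have hr2 : 0 < r ^ 2 * q := by positivity
    have h5 : r ^ 2 * d ≤ r ^ 2 * (2 * (c * q)) := mul_le_mul_of_nonneg_left hd1 (by positivity)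
    have h6 : 4 * Real.pi / 3 * (3 * (r ^ 2 * d)) ≤ 4.2 * (3 * (r ^ 2 * (2 * (c * q)))) := by
      apply mul_le_mul _ (by linarith) (by positivity) (by norm_num)
      linarith
    have h7 : 4.2 * (3 * (r ^ 2 * (2 * (c * q)))) = 25.2 * c * (r ^ 2 * q) := by ring
    have h8 : 25.2 * c * (r ^ 2 * q) < κ * (r ^ 2 * q) := by
      apply mul_lt_mul_of_pos_right _ hr2
      linarith
    linarith
  refine ⟨by linarith, ?_⟩
  have : c * q ≤ 1 / 2 * r := by
    calc c * q ≤ 1 / 2 * q := mul_le_mul_of_nonneg_right hc2 (by linarith)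
      _ ≤ 1 / 2 * r := by linarith
  linarith

/-- The constants. -/
theorem num_ac {r σ2 K : ℝ} (hr : 1 ≤ r) (hσ : 0 < σ2) (hK : 0 < K) :
    (σ2 * (r ^ 5 / 128)) ^ 2 / (16 * (K * r ^ 10)) = σ2 ^ 2 / (262144 * K) ∧
    σ2 * (r ^ 5 / 128) * Real.sqrt (σ2 * (r ^ 5 / 128) / (K * r ^ 10)) / 4 =
      σ2 * Real.sqrt (σ2 / (128 * K)) / 512 * (r ^ 2 * Real.sqrt r) := by
  have hr0 : 0 < r := by linarith
  constructor
  · field_simp
    norm_num
  · have h1 : σ2 * (r ^ 5 / 128) / (K * r ^ 10) = σ2 / (128 * K) / r ^ 5 := by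
      field_simp
    have h2 : Real.sqrt (r ^ 5) = r ^ 2 * Real.sqrt r := by
      rw [show r ^ 5 = (r ^ 2) ^ 2 * r by ring, Real.sqrt_mul (by positivity),
        Real.sqrt_sq (by positivity)]
    have h3 : r ^ 2 * Real.sqrt r * (r ^ 2 * Real.sqrt r) = r ^ 5 := by
      have := Real.mul_self_sqrt hr0.le
      calc r ^ 2 * Real.sqrt r * (r ^ 2 * Real.sqrt r)
          = r ^ 4 * (Real.sqrt r * Real.sqrt r) := by ring
        _ = r ^ 5 := by rw [this]; ring
    rw [h1, Real.sqrt_div (by positivity), h2]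
    have h4 : 0 < r ^ 2 * Real.sqrt r := by positivity
    rw [← h3]
    field_simp
    norm_num

end Pool.Agent.K1H53.BI
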