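import Pool.Agent.K1H53.BI.Plan

/-!
# Abelian property and the frozen dynamics
-/

set_option autoImplicit false

open scoped ENNReal
open Finset

namespace Pool.Agent.K1H53.BI

/-- The law after `n` events, started from the state `s`. -/
noncomputable def run (κ : St → PMF St) (s : St) : ℕ → PMF St
  | 0 => PMF.pure s
  | n + 1 => (run κ s n).bind κ

/-- Probability that the process started in the state `s` finishes and that the final aggregate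
has the property `G`. -/
noncomputable def Phi (ν : PMF ℕ) (G : Finset V → Prop) (s : St) : ℝ≥0∞ :=
  ⨆ n, Ex (run (step ν) s n) (ind fun s => Fin' s ∧ G s.A)

/-- A new moving particle at `x`. -/
def addp (x : V) (s : St) : St := ⟨s.A, x :: s.L, s.m⟩

/-- A launch. -/
def lau (s : St) : St := ⟨s.A, 0 :: s.L, s.m - 1⟩

/-- A (removed) particle at `x` branches. -/
noncomputable def top (ν : PMF ℕ) (x : V) (s : St) : PMF St := ν.bind fun k => children x k s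

/-- States which differ by the order of the particles. -/
structure Eqv (s s' : St) : Prop where
  A : s.A = s'.A
  L : s.L.Perm s'.L
  m : s.m = s'.m

/-- Functions which do not see the order of the particles. -/
def Sym (f : St → ℝ≥0∞) : Prop := ∀ s s', Eqv s s' → f s = f s'

/-- **Piece COM.** Branching events commute. -/
def S_COM : Prop :=
  (∀ (ν : PMF ℕ) (f : St → ℝ≥0∞), Sym f →
    (∀ x, Sym fun s => Ex (top ν x s) f) ∧
    (∀ x y s, Ex (top ν x s) (fun s' => Ex (top ν y s') f) =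
      Ex (top ν y s) (fun s' => Ex (top ν x s') f)) ∧
    (∀ x y s, Ex (top ν x (addp y s)) f = Ex (top ν x s) (fun s' => f (addp y s'))) ∧
    (∀ x s, Ex (top ν x (lau s)) f = Ex (top ν x s) (fun s' => f (lau s')))) ∧
  (∀ (ν : PMF ℕ) (x : V) (s s' : St), top ν x s s' ≠ 0 →
    s'.m = s.m ∧ s.L.length ≤ s'.L.length ∧ s.A ⊆ s'.A)

open Classical in
/-- Probability to finish in exactly `n` events with a final aggregate with the property `G`. -/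
noncomputable def qq (ν : PMF ℕ) (G : Finset V → Prop) : ℕ → St → ℝ≥0∞
  | 0, s => ind (fun s => Fin' s ∧ G s.A) s
  | n + 1, s => if Fin' s then 0 else Ex (step ν s) (qq ν G n)

/-- The functions `qq` do not see the order. -/
def C_QS : Prop := ∀ (ν : PMF ℕ) (G : Finset V → Prop) (n : ℕ), Sym (qq ν G n)

/-- **Piece QS.** -/
def S_QS : Prop := S_COM → C_QS

/-- The order of the branching events is irrelevant. -/
def C_QI : Prop :=
  ∀ (ν : PMF ℕ) (G : Finset V → Prop) (n : ℕ) (s : St),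
    (∀ x, qq ν G (n + 1) (addp x s) = Ex (top ν x s) (qq ν G n)) ∧
    (0 < s.m → qq ν G (n + 1) s = qq ν G n (lau s))

/-- **Piece QI.** -/
def S_QI : Prop := S_COM → C_QS → C_QI

/-- **Piece QP.** -/
def S_QP : Prop := ∀ (ν : PMF ℕ) (G : Finset V → Prop) (s : St), Phi ν G s = ∑' n, qq ν G n s

/-- Abelian property. -/
def C_ABEL : Prop :=
  ∀ (ν : PMF ℕ) (G : Finset V → Prop), Sym (Phi ν G) ∧
    (∀ x s, Phi ν G (addp x s) = Ex (top ν x s) (Phi ν G)) ∧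
    (∀ s, 0 < s.m → Phi ν G s = Phi ν G (lau s))

/-- **Piece ABEL.** -/
def S_ABEL : Prop := C_QS → C_QI → S_QP → C_ABEL

/-! ## The frozen dynamics -/

/-- A particle in the ball of radius `R` moves. -/
def Act (R : ℕ) (s : St) : Prop := ∃ x ∈ s.L, nsq x ≤ R ^ 2

open Classical in
/-- A moving particle in the ball (if there is one). -/
noncomputable def sel (R : ℕ) (s : St) : V := if h : Act R s then h.choose else 0

open Classical in
/-- Only the particles in the ball branch; if there is none, the next launch. -/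
noncomputable def stepF (ν : PMF ℕ) (R : ℕ) (s : St) : PMF St :=
  if Act R s then top ν (sel R s) ⟨s.A, s.L.erase (sel R s), s.m⟩
  else if s.m = 0 then PMF.pure s else PMF.pure (lau s)

/-- Everything is settled or frozen outside the ball. -/
def Froz (R : ℕ) (s : St) : Prop := ¬ Act R s ∧ s.m = 0

/-- **Piece GENF.** -/
def S_GENF : Prop :=
  ∀ (ν : PMF ℕ) (R : ℕ) (s : St),
    (¬ Act R s → ∃ s' : St, stepF ν R s = PMF.pure s' ∧ yy s' = yy s ∧ VV R s' = VV R s ∧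
      ZZ s' = ZZ s) ∧
    (Act R s → ∃ v : ℕ, 1 ≤ v ∧ v ≤ VV R s ∧ v ≤ (R + 1) ^ 2 ∧
      (∀ f : ℕ → ℝ≥0∞, Ex (stepF ν R s) (fun s' => f (yy s')) =
        Ex ν (fun k => f (yy s - 1 + k))) ∧
      (∀ f : ℕ → ℝ≥0∞, Ex (stepF ν R s) (fun s' => f (yy s') * (VV R s' : ℝ≥0∞)) ≤
        Ex ν (fun k => f (yy s - 1 + k) *
          (((VV R s - v) + k * (v - 1) : ℕ) : ℝ≥0∞))))

/-- **Piece GZF.** -/
def S_GZF : Prop :=
  ∀ (ν : PMF ℕ) (σ2 M : ℝ) (R : ℕ) (s : St), Off ν σ2 M →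
    Ex (stepF ν R s) (fun s' => (ZZ s' : ℝ≥0∞)) = ZZ s + ind (Act R) s

/-- One-step inequalities for the functions of `yy`. -/
def C_ONEF : Prop :=
  ∀ (ν : PMF ℕ) (σ2 M : ℝ) (R : ℕ) (s : St) (t : ℝ), Off ν σ2 M →
    Ex (stepF ν R s) (fun s' => (yy s' : ℝ≥0∞)) = yy s ∧
    Ex (stepF ν R s) (fun s' => ENNReal.ofReal (((yy s' : ℝ) - t) ^ 2)) =
      ENNReal.ofReal (((yy s : ℝ) - t) ^ 2) + ENNReal.ofReal σ2 * ind (Act R) s ∧
    Ex (stepF ν R s) (fun s' => ENNReal.ofReal (((yy s' : ℝ) - t) ^ 4)) ≤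
      ENNReal.ofReal (((yy s : ℝ) - t) ^ 4) +
        ENNReal.ofReal (10 * M) * (ENNReal.ofReal (((yy s : ℝ) - t) ^ 2) + 1) * ind (Act R) s

/-- **Piece ONEF.** -/
def S_ONEF : Prop := S_GENF → C_ONEF

/-- One-step inequalities for the functions with `VV`. -/
def C_TWOF : Prop :=
  ∀ (ν : PMF ℕ) (σ2 M : ℝ) (R : ℕ) (s : St) (t : ℝ), Off ν σ2 M →
    Ex (stepF ν R s) (fun s' => (VV R s' : ℝ≥0∞)) + ind (Act R) s ≤ VV R s ∧
    Ex (stepF ν R s) (fun s' => (yy s' : ℝ≥0∞) * (VV R s' : ℝ≥0∞)) + yy s * ind (Act R) s ≤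
      (yy s : ℝ≥0∞) * VV R s + ENNReal.ofReal (M * (R + 1) ^ 2) * ind (Act R) s ∧
    Ex (stepF ν R s) (fun s' => ENNReal.ofReal (((yy s' : ℝ) - t) ^ 2) * (VV R s' : ℝ≥0∞)) +
        ENNReal.ofReal (((yy s : ℝ) - t) ^ 2 / 2) * ind (Act R) s ≤
      ENNReal.ofReal (((yy s : ℝ) - t) ^ 2) * VV R s +
        (ENNReal.ofReal M * VV R s + ENNReal.ofReal (4 * M ^ 2 * (R + 1) ^ 4)) *
          ind (Act R) s

/-- **Piece TWOF.** -/
def S_TWOF : Prop := S_GENF → C_TWOF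

/-- Expected number of branching events among the first `n` events of the frozen dynamics. -/
noncomputable def ENF (ν : PMF ℕ) (R : ℕ) (s₀ : St) (n : ℕ) : ℝ≥0∞ :=
  ∑ u ∈ range n, Ex (run (stepF ν R) s₀ u) (ind (Act R))

/-- Conclusion of the piece SUMF. -/
def C_SUMF : Prop :=
  ∀ (ν : PMF ℕ) (σ2 M : ℝ) (R n : ℕ) (s₀ : St), Off ν σ2 M → s₀.L = [] → 1 ≤ yy s₀ →
    Ex (run (stepF ν R) s₀ n) (fun s => (yy s : ℝ≥0∞)) = yy s₀ ∧
    ENF ν R s₀ n ≤ yy s₀ * (R + 1) ^ 2 ∧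
    Ex (run (stepF ν R) s₀ n) (fun s => ENNReal.ofReal (((yy s : ℝ) - yy s₀) ^ 2)) =
      ENNReal.ofReal σ2 * ENF ν R s₀ n ∧
    ((R + 1) ^ 2 ≤ yy s₀ →
      Ex (run (stepF ν R) s₀ n) (fun s => ENNReal.ofReal (((yy s : ℝ) - yy s₀) ^ 4)) ≤
        ENNReal.ofReal (130 * M ^ 3 * (yy s₀ : ℝ) ^ 2 * (R + 1) ^ 4)) ∧
    Ex (run (stepF ν R) s₀ n) (fun s => (ZZ s : ℝ≥0∞)) = ZZ s₀ + ENF ν R s₀ n

/-- **Piece SUMF.** -/
def S_SUMF : Prop := S_GZF → C_ONEF → C_TWOF → C_SUMF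

/-- The frozen dynamics freezes. -/
def C_TERMF : Prop :=
  ∀ (ν : PMF ℕ) (σ2 M : ℝ) (R : ℕ) (s₀ : St) (ε : ℝ), Off ν σ2 M → s₀.L = [] → 1 ≤ yy s₀ →
    0 < ε → ∃ n₀ : ℕ, ∀ n, n₀ ≤ n →
      Ex (run (stepF ν R) s₀ n) (ind fun s => ¬ Froz R s) ≤ ENNReal.ofReal ε

/-- **Piece TERMF.** -/
def S_TERMF : Prop := C_SUMF → C_TERMF

/-- Conclusion of the piece ABF. -/
def C_ABF : Prop :=
  ∀ (ν : PMF ℕ) (G : Finset V → Prop) (R n : ℕ) (s₀ : St),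
    Phi ν G s₀ = Ex (run (stepF ν R) s₀ n) (Phi ν G)

/-- **Piece ABF.** -/
def S_ABF : Prop := C_ABEL → C_ABF

/-- **Piece HARM.** A superharmonic function on the lattice. -/
def S_HARM : Prop :=
  ∀ ρ : ℝ, 10 ≤ ρ → ∃ h : V → ℝ, (∀ x, 0 ≤ h x) ∧ (∀ x, h x ≤ 1) ∧
    (∀ x, ∑ e : Fin 3 × Bool, h (x + dir e) ≤ 6 * h x) ∧
    (∀ x, nrm x ≤ ρ → h x = 1) ∧ (∀ x, 2 * ρ ≤ nrm x → h x ≤ 3 / 4)

/-- **Piece MARK.** The frozen particles do not fill the ball. -/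
def S_MARK : Prop :=
  ∀ (ν : PMF ℕ) (σ2 M : ℝ) (h : V → ℝ) (s : St) (D : Finset V), Off ν σ2 M →
    (∀ x, 0 ≤ h x) → (∀ x, h x ≤ 1) →
    (∀ x, ∑ e : Fin 3 × Bool, h (x + dir e) ≤ 6 * h x) →
    (∀ x ∈ D, h x = 1) → (∀ x ∈ s.L, h x ≤ 3 / 4) → s.m = 0 →
    s.A.card + s.L.length < D.card → Phi ν (fun _ => True) s = 1 →
    ENNReal.ofReal (1 / 4) ≤ Phi ν (fun A => ¬ D ⊆ A) s

/-- **Piece INVF.** -/
def S_INVF : Prop :=
  (∀ (ν : PMF ℕ) (R n : ℕ) (s₀ s : St), s₀.L = [] → (0 : V) ∈ s₀.A →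
    run (stepF ν R) s₀ n s ≠ 0 → s₀.A ⊆ s.A ∧ ∀ x ∈ s.L, x ∈ s.A) ∧
  (∀ (ν : PMF ℕ) (G : Finset V → Prop) (s : St), (∀ A, s.A ⊆ A → G A) →
    Phi ν G s = Phi ν (fun _ => True) s) ∧
  (∀ (ν : PMF ℕ) (G G' : Finset V → Prop) (s : St), (∀ A, G A → G' A) →
    Phi ν G s ≤ Phi ν G' s) ∧
  (∀ (ν : PMF ℕ) (G : Finset V → Prop) (s : St),
    Phi ν G s + Phi ν (fun A => ¬ G A) s = Phi ν (fun _ => True) s)

/-- Conclusion of the piece FINF: from every initial aggregate, at all large times. -/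
def C_FINF : Prop :=
  ∀ ν : PMF ℕ, CondH ν → ∃ c : ℝ, 0 < c ∧ ∀ (A₀ : Finset V) (t₀ : ℕ), (0 : V) ∈ A₀ →
    ∃ T₁ : ℕ, t₀ ≤ T₁ ∧ ∀ T : ℕ, T₁ ≤ T → Phi ν (fun _ => True) ⟨A₀, [], T - t₀⟩ = 1 →
      ENNReal.ofReal c ≤ Phi ν (fun A => c * Real.sqrt (rad T) ≤ devO T A) ⟨A₀, [], T - t₀⟩ ∧
      ENNReal.ofReal c ≤ Phi ν (fun A => c * Real.sqrt (rad T) ≤ devI T A) ⟨A₀, [], T - t₀⟩

/-- **Piece FINF.** -/
def S_FINF : Prop :=
  S_OFF → C_SUMF → C_TERMF → S_AC → S_BALL → S_MOM → C_ABF → S_HARM → S_MARK → S_INVF → C_FINF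

end Pool.Agent.K1H53.BI
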