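import Pool.Agent.K1H53.BI.Fin
import Pool.Agent.K1H53.BI.Plan2

/-!
# The piece FINF: both deviations, from every initial aggregate
-/

set_option autoImplicit false

open scoped ENNReal
open Finset

namespace Pool.Agent.K1H53.BI

theorem Phi_le_one (ν : PMF ℕ) (G : Finset V → Prop) (s : St) : Phi ν G s ≤ 1 :=
  iSup_le fun _ => ind_le_one _ _

/-- If the mean of `f ≤ 1` is one then `f = 1` on the support. -/
theorem eq_one_of_Ex {α : Type} (p : PMF α) (f : α → ℝ≥0∞) (hf : ∀ a, f a ≤ 1)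
    (h : Ex p f = 1) : ∀ a, p a ≠ 0 → f a = 1 := by
  intro a ha
  have h1 : Ex p f + Ex p (fun a => 1 - f a) = 1 := by
    rw [← Ex_add]
    refine (Ex_congr p fun b _ => ?_).trans (Ex_const p 1)
    exact add_tsub_cancel_of_le (hf b)
  rw [h] at h1
  have h2 : Ex p (fun a => 1 - f a) = 0 := by
    have : (1 : ℝ≥0∞) + Ex p (fun a => 1 - f a) = 1 + 0 := by rw [h1, add_zero]
    exact (ENNReal.add_right_inj ENNReal.one_ne_top).1 this
  unfold Ex at h2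
  have h3 := ENNReal.tsum_eq_zero.1 h2 a
  rcases mul_eq_zero.1 h3 with h4 | h4
  · exact absurd h4 ha
  · exact le_antisymm (hf a) (tsub_eq_zero_iff_le.1 h4)

theorem num_ac2 {r σ2 K : ℝ} (hr : 1 ≤ r) (hσ : 0 < σ2) (hK : 0 < K) :
    (σ2 * (r ^ 5 / 256)) ^ 2 / (16 * (K * r ^ 10)) = σ2 ^ 2 / (1048576 * K) ∧
    σ2 * (r ^ 5 / 256) * Real.sqrt (σ2 * (r ^ 5 / 256) / (K * r ^ 10)) / 4 =
      σ2 * Real.sqrt (σ2 / (256 * K)) / 1024 * (r ^ 2 * Real.sqrt r) := by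
  have hr0 : 0 < r := by linarith
  constructor
  · field_simp
    norm_num
  · have h1 : σ2 * (r ^ 5 / 256) / (K * r ^ 10) = σ2 / (256 * K) / r ^ 5 := by
      field_simp
    have h2 : Real.sqrt (r ^ 5) = r ^ 2 * Real.sqrt r := by
      rw [show r ^ 5 = (r ^ 2) ^ 2 * r by ring, Real.sqrt_mul (by positivity),
        Real.sqrt_sq (by positivity)]
    have h3 : r ^ 2 * Real.sqrt r * (r ^ 2 * Real.sqrt r) = r ^ 5 := by
      have := Real.mul_self_sqrt hr0.le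
      calc r ^ 2 * Real.sqrt r * (r ^ 2 * Real.sqrt r)
          = r ^ 4 * (Real.sqrt r * Real.sqrt r) := by ring
        _ = r ^ 5 := by rw [this]; ring
    rw [h1, Real.sqrt_div (by positivity), h2]
    have h4 : 0 < r ^ 2 * Real.sqrt r := by positivity
    rw [← h3]
    field_simp
    norm_num

/-- The lattice points of a ball. -/
noncomputable def ballF (ρ : ℝ) : Finset V := by
  classical
  exact (Finset.Icc (fun _ : Fin 3 => -(⌈ρ⌉₊ : ℤ)) (fun _ => (⌈ρ⌉₊ : ℤ))).filter fun z => nrm z < ρ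

theorem mem_ballF {ρ : ℝ} {z : V} : z ∈ ballF ρ ↔ nrm z < ρ := by
  unfold ballF
  rw [Finset.mem_filter]
  refine ⟨fun h => h.2, fun h => ⟨?_, h⟩⟩
  rw [Finset.mem_Icc]
  have hi : ∀ i, |z i| ≤ (⌈ρ⌉₊ : ℤ) := by
    intro i
    have h1 : (z i).natAbs ^ 2 ≤ nsq z := by
      unfold nsq
      exact Finset.single_le_sum (f := fun i => (z i).natAbs ^ 2) (fun _ _ => Nat.zero_le _)
        (Finset.mem_univ i)
    have h2 : ((z i).natAbs : ℝ) ≤ nrm z := by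
      unfold nrm
      apply Real.le_sqrt_of_sq_le
      exact_mod_cast h1
    have h3 : ((z i).natAbs : ℝ) ≤ (⌈ρ⌉₊ : ℝ) := (h2.trans h.le).trans (Nat.le_ceil ρ)
    have h4 : (z i).natAbs ≤ ⌈ρ⌉₊ := by exact_mod_cast h3
    rw [Int.abs_eq_natAbs]
    exact_mod_cast h4
  exact ⟨fun i => (abs_le.1 (hi i)).1, fun i => (abs_le.1 (hi i)).2⟩

/-- The pointwise bound for `ZZ` in a frozen state. -/
theorem ZZ_froz (hMOM : S_MOM) {T R : ℕ} (hr : 3 ≤ rad T) (hR1 : 2 * rad T ≤ R) {s : St}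
    (hf : Froz R s) (h : 3 / 2 * rad T ^ 3 ≤ (yy s : ℝ)) :
    ENNReal.ofReal (rad T ^ 5 / 64) ≤ (ZZ s : ℝ≥0∞) := by
  have hr0 : 0 ≤ rad T := by linarith
  have h27 : (27 : ℝ) ≤ rad T ^ 3 := by
    calc (27 : ℝ) = 3 ^ 3 := by norm_num
      _ ≤ rad T ^ 3 := pow_le_pow_left₀ (by norm_num) hr 3
  have key : rad T ^ 5 / 64 ≤ (ZZ s : ℝ) := by
    have hZ : (ZZ s : ℝ) = ∑ z ∈ s.A, (nsq z : ℝ) + ((s.L.map nsq).sum : ℕ) := by
      unfold ZZ
      push_cast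
      rfl
    rcases le_or_gt (rad T ^ 3) (s.A.card : ℝ) with h3 | h3
    · have h16 : 16 ≤ s.A.card := by
        have : (16 : ℝ) ≤ s.A.card := by linarith
        exact_mod_cast this
      have h4 := hMOM s.A h16
      have h5 : rad T ^ 5 ≤ (s.A.card : ℝ) ^ ((5 : ℝ) / 3) := by
        have e : rad T ^ 5 = (rad T ^ 3) ^ ((5 : ℝ) / 3) := by
          rw [← Real.rpow_natCast (rad T) 3, ← Real.rpow_mul hr0, ← Real.rpow_natCast]
          norm_num
        rw [e]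
        exact Real.rpow_le_rpow (by positivity) h3 (by norm_num)
      have h7 : rad T ^ 5 / 64 ≤ (s.A.card : ℝ) ^ ((5 : ℝ) / 3) / 64 :=
        div_le_div_of_nonneg_right h5 (by norm_num)
      have : (0 : ℝ) ≤ ((s.L.map nsq).sum : ℕ) := Nat.cast_nonneg _
      rw [hZ]
      linarith
    · have h4 : (s.L.length : ℝ) ≥ 1 / 2 * rad T ^ 3 := by
        have : (yy s : ℝ) = s.A.card + s.L.length := by
          unfold yy
          rw [hf.2]
          push_cast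
          ring
        rw [this] at h
        linarith
      have h5 : s.L.length * R ^ 2 ≤ (s.L.map nsq).sum := by
        have h6 := List.card_nsmul_le_sum (s.L.map nsq) (R ^ 2) (by
          intro y hy
          obtain ⟨x, hx, rfl⟩ := List.mem_map.1 hy
          by_contra hc
          push Not at hc
          exact hf.1 ⟨x, hx, hc.le⟩)
        simpa using h6
      have h6 : ((s.L.length : ℝ)) * (R : ℝ) ^ 2 ≤ ((s.L.map nsq).sum : ℕ) := by exact_mod_cast h5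
      have h7 : 4 * rad T ^ 2 ≤ (R : ℝ) ^ 2 := by
        calc 4 * rad T ^ 2 = (2 * rad T) ^ 2 := by ring
          _ ≤ (R : ℝ) ^ 2 := pow_le_pow_left₀ (by positivity) hR1 2
      have h8 : 1 / 2 * rad T ^ 3 * (4 * rad T ^ 2) ≤ (s.L.length : ℝ) * (R : ℝ) ^ 2 :=
        mul_le_mul h4 h7 (by positivity) (by positivity)
      have h9 : 1 / 2 * rad T ^ 3 * (4 * rad T ^ 2) = 2 * rad T ^ 5 := by ring
      have h10 : 0 ≤ rad T ^ 5 := by positivity
      have h11 : (0 : ℝ) ≤ ∑ z ∈ s.A, (nsq z : ℝ) := Finset.sum_nonneg fun _ _ => Nat.cast_nonneg _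
      rw [hZ]
      linarith
  calc ENNReal.ofReal (rad T ^ 5 / 64) ≤ ENNReal.ofReal (ZZ s : ℝ) := ENNReal.ofReal_le_ofReal key
    _ = (ZZ s : ℝ≥0∞) := ENNReal.ofReal_natCast _

/-- A frozen state with a large mass has a large outer deviation for ever. -/
theorem outer_froz (hB : S_BALL) (hI : S_INVF) (ν : PMF ℕ) {T R : ℕ} {c κ : ℝ} (hr : 3 ≤ rad T)
    (hR1 : 2 * rad T ≤ R) (hc : 0 < c) (hcκ : c ≤ κ / 120) (hc2 : c ≤ 1 / 2)
    (hr1 : 1 ≤ c * Real.sqrt (rad T)) {s : St} (hf : Froz R s) (hL : ∀ x ∈ s.L, x ∈ s.A)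
    (h : (T : ℝ) + κ * (rad T ^ 2 * Real.sqrt (rad T)) ≤ yy s)
    (ht : Phi ν (fun _ => True) s = 1) :
    Phi ν (fun A => c * Real.sqrt (rad T) ≤ devO T A) s = 1 := by
  rw [hI.2.1 ν _ s, ht]
  intro A hA
  by_cases hL0 : s.L = []
  · have h1 := num_up (r := rad T) (c := c) (κ := κ) (by linarith) hc hcκ hc2 hr1
    rw [rad_cube T] at h1
    have h2 : (yy s : ℝ) = s.A.card := by
      unfold yy
      rw [hf.2, hL0]
      simp
    have h3 : (s.A.card : ℝ) ≤ A.card := by exact_mod_cast Finset.card_le_card hA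
    exact devO_of_card hB (by positivity) (h1.trans_le (by linarith))
  · obtain ⟨x, hx⟩ := List.exists_mem_of_ne_nil _ hL0
    have h1 : ¬ In R (⟨A, [], 0⟩ : St) := by
      intro hin
      have h2 := hin x (hA (hL x hx))
      exact hf.1 ⟨x, hx, h2⟩
    have h2 := devO_of_not_In (T := T) hR1 h1
    refine le_trans ?_ h2
    have hq1 : 1 ≤ Real.sqrt (rad T) := Real.one_le_sqrt.2 (by linarith)
    have hqr : Real.sqrt (rad T) ≤ rad T := by
      have : Real.sqrt (rad T) * Real.sqrt (rad T) = rad T := Real.mul_self_sqrt (by linarith)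
      nlinarith
    nlinarith

/-- From a frozen state with a small mass the ball is not filled with probability `1/4`. -/
theorem inner_froz (hB : S_BALL) (hI : S_INVF) (hH : S_HARM) (hM : S_MARK) (ν : PMF ℕ)
    {σ2 M : ℝ} (hoff : Off ν σ2 M) {T R : ℕ} {c κ : ℝ} (hr : 10 ≤ rad T)
    (hR1 : 2 * rad T ≤ R) (hc : 0 < c) (hcκ : c ≤ κ / 120) (hc2 : c ≤ 1 / 2)
    (hr1 : 1 ≤ c * Real.sqrt (rad T)) {s : St} (hf : Froz R s)
    (h : (yy s : ℝ) ≤ T - κ * (rad T ^ 2 * Real.sqrt (rad T)))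
    (ht : Phi ν (fun _ => True) s = 1) :
    ENNReal.ofReal (1 / 4) ≤ Phi ν (fun A => c * Real.sqrt (rad T) ≤ devI T A) s := by
  obtain ⟨h1, h2⟩ := num_down (r := rad T) (c := c) (κ := κ) (by linarith) hc hcκ hc2 hr1
  rw [rad_cube T] at h1
  obtain ⟨g, hg0, hg1, hg2, hg3, hg4⟩ := hH (rad T) hr
  set D := ballF (rad T - c * Real.sqrt (rad T)) with hD
  have hcr0 : 0 ≤ c * Real.sqrt (rad T) := by positivity
  have hDcard := hB.2 (rad T - c * Real.sqrt (rad T)) D h2 (fun z hz => mem_ballF.2 hz)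
  have hyy : (yy s : ℝ) = s.A.card + s.L.length := by
    unfold yy
    rw [hf.2]
    push_cast
    ring
  have hlt : s.A.card + s.L.length < D.card := by
    have : (s.A.card : ℝ) + s.L.length < D.card := by
      rw [← hyy]
      exact lt_of_le_of_lt h (h1.trans_le hDcard)
    exact_mod_cast this
  have hm := hM ν σ2 M g s D hoff hg0 hg1 hg2
    (fun x hx => hg3 x (le_of_lt (lt_of_lt_of_le (mem_ballF.1 hx) (by linarith))))
    (fun x hx => hg4 x (by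
      have h3 : ¬ nsq x ≤ R ^ 2 := fun h3 => hf.1 ⟨x, hx, h3⟩
      have h4 : (R : ℝ) ≤ nrm x := by
        unfold nrm
        apply Real.le_sqrt_of_sq_le
        exact_mod_cast (not_le.1 h3).le
      linarith)) hf.2 hlt ht
  refine hm.trans (hI.2.2.1 ν _ _ s fun A hA => ?_)
  refine le_csInf (devI_nonempty T A) fun δ hδ => ?_
  by_contra hcon
  push Not at hcon
  apply hA
  intro z hz
  exact hδ.2 z (lt_of_lt_of_le (mem_ballF.1 hz) (by linarith))

/-- Transfer from the frozen states to the initial state. -/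
theorem transferF (hABF : C_ABF) (ν : PMF ℕ) (G : Finset V → Prop) (R n : ℕ) (s₀ : St)
    (c₃ θ w : ℝ) (hθ0 : 0 ≤ θ) (hθ : 2 * θ ≤ c₃) (hw : 0 ≤ w)
    (he : Ex (run (stepF ν R) s₀ n) (ind fun s => ¬ Froz R s) ≤ ENNReal.ofReal θ)
    (P : St → Prop)
    (hP : ENNReal.ofReal c₃ ≤ Ex (run (stepF ν R) s₀ n) (ind P))
    (hG : ∀ s, run (stepF ν R) s₀ n s ≠ 0 → Froz R s → P s → ENNReal.ofReal w ≤ Phi ν G s) :
    ENNReal.ofReal (w * θ) ≤ Phi ν G s₀ := by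
  rw [hABF ν G R n s₀]
  set p := run (stepF ν R) s₀ n with hp
  have h1 : ENNReal.ofReal θ ≤ Ex p (ind fun s => Froz R s ∧ P s) := by
    by_contra hcon
    push Not at hcon
    have h2 : Ex p (ind P) ≤ Ex p (ind fun s => Froz R s ∧ P s) + Ex p (ind fun s => ¬ Froz R s) := by
      refine ind_le_two p P _ _ fun s hs => ?_
      by_cases hf : Froz R s
      · exact Or.inl ⟨hf, hs⟩
      · exact Or.inr hf
    have h3 : Ex p (ind fun s => Froz R s ∧ P s) + Ex p (ind fun s => ¬ Froz R s) <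
        ENNReal.ofReal θ + ENNReal.ofReal θ :=
      ENNReal.add_lt_add_of_lt_of_le (ne_top_of_le_ne_top ENNReal.ofReal_ne_top he) hcon he
    rw [← ENNReal.ofReal_add hθ0 hθ0] at h3
    have h4 := (hP.trans h2).trans_lt h3
    exact absurd h4 (not_lt.2 (ENNReal.ofReal_le_ofReal (by linarith)))
  rw [ENNReal.ofReal_mul hw]
  calc ENNReal.ofReal w * ENNReal.ofReal θ
      ≤ ENNReal.ofReal w * Ex p (ind fun s => Froz R s ∧ P s) := mul_le_mul_right h1 _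
    _ = Ex p (fun s => ENNReal.ofReal w * ind (fun s => Froz R s ∧ P s) s) :=
        (Ex_const_mul _ _ _).symm
    _ ≤ Ex p (Phi ν G) := by
        refine Ex_mono p fun s hs => ?_
        by_cases h : Froz R s ∧ P s
        · rw [ind_yes (P := fun s => Froz R s ∧ P s) h, mul_one]
          exact hG s hs h.1 h.2
        · rw [ind_no (P := fun s => Froz R s ∧ P s) h, mul_zero]
          exact zero_le

/-- The number of events of the frozen dynamics is at least of order `r ^ 5`. -/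
theorem ENF_large (hSUM : C_SUMF) (hMOM : S_MOM) (ν : PMF ℕ) (σ2 M : ℝ)
    (hoff : Off ν σ2 M) {T R n : ℕ} {s₀ : St} {θ : ℝ} (hθ8 : θ ≤ 1 / 8) (hL : s₀.L = [])
    (hr : 3 ≤ rad T) (hrσ : 96 * σ2 ≤ rad T) (hR1 : 2 * rad T ≤ R)
    (hRsq : ((R : ℝ) + 1) ^ 2 ≤ 9 * rad T ^ 2)
    (hY : 3 * rad T ^ 3 ≤ yy s₀) (hZ : (ZZ s₀ : ℝ) ≤ rad T ^ 5 / 256)
    (he : Ex (run (stepF ν R) s₀ n) (ind fun s => ¬ Froz R s) ≤ ENNReal.ofReal θ) :
    ENNReal.ofReal (rad T ^ 5 / 256) ≤ ENF ν R s₀ n := by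
  have hr0 : 0 ≤ rad T := by linarith
  have hσ := hoff.pos
  have h27 : (27 : ℝ) ≤ rad T ^ 3 := by
    calc (27 : ℝ) = 3 ^ 3 := by norm_num
      _ ≤ rad T ^ 3 := pow_le_pow_left₀ (by norm_num) hr 3
  have hYpos : 0 < yy s₀ := by
    have : (0 : ℝ) < yy s₀ := by linarith
    exact_mod_cast this
  have hY' : (0 : ℝ) < yy s₀ := by exact_mod_cast hYpos
  obtain ⟨hs1, hs2, hs3, -, hs5⟩ := hSUM ν σ2 M R n s₀ hoff hL hYpos
  set p := run (stepF ν R) s₀ n with hp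
  have hch : Ex p (ind fun s => (yy s₀ : ℝ) / 2 ≤ |(yy s : ℝ) - yy s₀|) ≤
      ENNReal.ofReal (1 / 8) := by
    refine cheb p yy (yy s₀) (σ2 * (yy s₀ * (9 * rad T ^ 2))) hYpos ?_ ?_
    · rw [hs3, ENNReal.ofReal_mul hσ.le]
      refine mul_le_mul_right (hs2.trans ?_) _
      have e1 : ((yy s₀ : ℝ≥0∞) * ((R : ℝ≥0∞) + 1) ^ 2) =
          ENNReal.ofReal ((yy s₀ : ℝ) * ((R : ℝ) + 1) ^ 2) := by
        rw [ENNReal.ofReal_mul (by positivity), ENNReal.ofReal_natCast,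
          ENNReal.ofReal_pow (by positivity), ENNReal.ofReal_add (by positivity) (by norm_num),
          ENNReal.ofReal_natCast, ENNReal.ofReal_one]
      rw [e1]
      exact ENNReal.ofReal_le_ofReal (mul_le_mul_of_nonneg_left hRsq hY'.le)
    · have h1 : 288 * σ2 * rad T ^ 2 ≤ yy s₀ := by
        have : 3 * (96 * σ2) * rad T ^ 2 ≤ 3 * rad T * rad T ^ 2 := by
          apply mul_le_mul_of_nonneg_right _ (by positivity)
          linarith
        nlinarith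
      calc σ2 * (yy s₀ * (9 * rad T ^ 2)) = (yy s₀ : ℝ) * (288 * σ2 * rad T ^ 2) / 32 := by ring
        _ ≤ (yy s₀ : ℝ) * yy s₀ / 32 := by
          apply div_le_div_of_nonneg_right _ (by norm_num)
          exact mul_le_mul_of_nonneg_left h1 hY'.le
        _ = (yy s₀ : ℝ) ^ 2 / 32 := by ring
  -- the sum of the squared norms is large with probability at least one half
  have hhalf : ENNReal.ofReal (1 / 2) ≤
      Ex p (ind fun s => Froz R s ∧ 3 / 2 * rad T ^ 3 ≤ (yy s : ℝ)) := by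
    set X := Ex p (ind fun s => Froz R s ∧ 3 / 2 * rad T ^ 3 ≤ (yy s : ℝ)) with hX
    have h1 : (1 : ℝ≥0∞) ≤ X + Ex p (ind fun s => ¬ Froz R s) +
        Ex p (ind fun s => (yy s₀ : ℝ) / 2 ≤ |(yy s : ℝ) - yy s₀|) := by
      rw [hX, ← Ex_add, ← Ex_add, ← Ex_const p 1]
      refine Ex_mono p fun s _ => ?_
      by_cases a1 : Froz R s
      · by_cases a3 : (yy s₀ : ℝ) / 2 ≤ |(yy s : ℝ) - yy s₀|
        · rw [ind_yes (P := fun s : St => (yy s₀ : ℝ) / 2 ≤ |(yy s : ℝ) - yy s₀|) a3]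
          exact le_add_self
        · have a4 : 3 / 2 * rad T ^ 3 ≤ (yy s : ℝ) := by
            push Not at a3
            have := (abs_lt.1 a3).1
            linarith
          rw [ind_yes (P := fun s : St => Froz R s ∧ 3 / 2 * rad T ^ 3 ≤ (yy s : ℝ)) ⟨a1, a4⟩,
            add_assoc]
          exact le_self_add
      · rw [ind_yes (P := fun s : St => ¬ Froz R s) a1]
        exact le_add_self.trans le_self_add
    by_contra hX2
    push Not at hX2
    have h2 : X + Ex p (ind fun s => ¬ Froz R s) +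
        Ex p (ind fun s => (yy s₀ : ℝ) / 2 ≤ |(yy s : ℝ) - yy s₀|) <
        ENNReal.ofReal (1 / 2) + ENNReal.ofReal (1 / 8) + ENNReal.ofReal (1 / 8) := by
      have hθ' : ENNReal.ofReal θ ≤ ENNReal.ofReal (1 / 8) := ENNReal.ofReal_le_ofReal hθ8
      have b2 := he.trans hθ'
      have t2 := ne_top_of_le_ne_top ENNReal.ofReal_ne_top b2
      have t3 := ne_top_of_le_ne_top ENNReal.ofReal_ne_top hch
      exact ENNReal.add_lt_add_of_lt_of_le t3 (ENNReal.add_lt_add_of_lt_of_le t2 hX2 b2) hch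
    rw [← ENNReal.ofReal_add (by norm_num) (by norm_num),
      ← ENNReal.ofReal_add (by norm_num) (by norm_num)] at h2
    have h3 := h1.trans_lt h2
    rw [← ENNReal.ofReal_one] at h3
    exact absurd h3 (not_lt.2 (ENNReal.ofReal_le_ofReal (by norm_num)))
  have h1 : ENNReal.ofReal (rad T ^ 5 / 128) ≤ Ex p (fun s => (ZZ s : ℝ≥0∞)) := by
    calc ENNReal.ofReal (rad T ^ 5 / 128)
        = ENNReal.ofReal (rad T ^ 5 / 64) * ENNReal.ofReal (1 / 2) := by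
          rw [← ENNReal.ofReal_mul (by positivity)]
          congr 1
          ring
      _ ≤ ENNReal.ofReal (rad T ^ 5 / 64) *
            Ex p (ind fun s => Froz R s ∧ 3 / 2 * rad T ^ 3 ≤ (yy s : ℝ)) :=
          mul_le_mul_right hhalf _
      _ = Ex p (fun s => ENNReal.ofReal (rad T ^ 5 / 64) *
            ind (fun s => Froz R s ∧ 3 / 2 * rad T ^ 3 ≤ (yy s : ℝ)) s) :=
          (Ex_const_mul _ _ _).symm
      _ ≤ Ex p (fun s => (ZZ s : ℝ≥0∞)) := by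
          refine Ex_mono p fun s _ => ?_
          by_cases h : Froz R s ∧ 3 / 2 * rad T ^ 3 ≤ (yy s : ℝ)
          · rw [ind_yes (P := fun s => Froz R s ∧ 3 / 2 * rad T ^ 3 ≤ (yy s : ℝ)) h, mul_one]
            exact ZZ_froz hMOM hr hR1 h.1 h.2
          · rw [ind_no (P := fun s => Froz R s ∧ 3 / 2 * rad T ^ 3 ≤ (yy s : ℝ)) h, mul_zero]
            exact zero_le
  rw [hs5] at h1
  have h2 : (ZZ s₀ : ℝ≥0∞) ≤ ENNReal.ofReal (rad T ^ 5 / 256) := by
    rw [← ENNReal.ofReal_natCast]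
    exact ENNReal.ofReal_le_ofReal hZ
  have h3 : ENNReal.ofReal (rad T ^ 5 / 256) + ENNReal.ofReal (rad T ^ 5 / 256) ≤
      ENNReal.ofReal (rad T ^ 5 / 256) + ENF ν R s₀ n := by
    rw [← ENNReal.ofReal_add (by positivity) (by positivity)]
    refine le_trans (le_of_eq ?_) (h1.trans (add_le_add_left h2 _))
    congr 1
    ring
  exact (ENNReal.add_le_add_iff_left ENNReal.ofReal_ne_top).1 h3

/-- The core of the piece FINF. -/
theorem coreF (hSUM : C_SUMF) (hTERM : C_TERMF) (hAC : S_AC) (hB : S_BALL) (hMOM : S_MOM)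
    (hABF : C_ABF) (hH : S_HARM) (hMK : S_MARK) (hI : S_INVF)
    (ν : PMF ℕ) (σ2 M : ℝ) (hoff : Off ν σ2 M) (T : ℕ) (s₀ : St) (K κ c₃ θ c C₀ : ℝ)
    (hK : K = 270000 * M ^ 3) (hκ : κ = σ2 * Real.sqrt (σ2 / (256 * K)) / 1024)
    (hc₃ : c₃ = σ2 ^ 2 / (1048576 * K)) (hθ0 : 0 < θ) (hθ2 : 2 * θ ≤ c₃) (hθ8 : θ ≤ 1 / 8)
    (hc : 0 < c) (hcκ : c ≤ κ / 2 / 120) (hc2 : c ≤ 1 / 2)
    (hr : 10 ≤ rad T) (hrσ : 96 * σ2 ≤ rad T) (hr1 : 1 ≤ c * Real.sqrt (rad T))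
    (h0 : (0 : V) ∈ s₀.A) (hL : s₀.L = [])
    (hY : |(yy s₀ : ℝ) - T| ≤ C₀) (hC₀ : C₀ ≤ rad T ^ 3 / 2)
    (hC₁ : C₀ ≤ κ / 2 * (rad T ^ 2 * Real.sqrt (rad T)))
    (hZ : (ZZ s₀ : ℝ) ≤ rad T ^ 5 / 256) (ht : Phi ν (fun _ => True) s₀ = 1) :
    ENNReal.ofReal (1 * θ) ≤ Phi ν (fun A => c * Real.sqrt (rad T) ≤ devO T A) s₀ ∧
    ENNReal.ofReal (1 / 4 * θ) ≤ Phi ν (fun A => c * Real.sqrt (rad T) ≤ devI T A) s₀ := by
  have hr0 : 0 ≤ rad T := by linarith
  have hM1 := hoff.one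
  have hσ := hoff.pos
  have hM0 : 0 < M := by linarith
  have hK0 : 0 < K := by rw [hK]; positivity
  have hπ := Real.pi_gt_three
  have hπ2 : Real.pi < 3.15 := Real.pi_lt_d2
  have hcube : 4 * Real.pi / 3 * rad T ^ 3 = T := rad_cube T
  have hr3 : 0 ≤ rad T ^ 3 := by positivity
  have hTlow : 4 * rad T ^ 3 ≤ T := by rw [← hcube]; nlinarith
  have hThigh : (T : ℝ) ≤ 4.2 * rad T ^ 3 := by rw [← hcube]; nlinarith
  have hY1 := abs_le.1 hY
  have hYlow : 3 * rad T ^ 3 ≤ yy s₀ := by linarith [hY1.1]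
  have hYhigh : (yy s₀ : ℝ) ≤ 5 * rad T ^ 3 := by linarith [hY1.2]
  have hT1000 : (1000 : ℝ) ≤ rad T ^ 3 := by
    calc (1000 : ℝ) = 10 ^ 3 := by norm_num
      _ ≤ rad T ^ 3 := pow_le_pow_left₀ (by norm_num) hr 3
  have hYpos : 0 < yy s₀ := by
    have : (0 : ℝ) < yy s₀ := by linarith
    exact_mod_cast this
  -- the radius
  set R : ℕ := ⌈2 * rad T⌉₊ with hR
  have hR1 : 2 * rad T ≤ R := Nat.le_ceil _
  have hR2 : (R : ℝ) < 2 * rad T + 1 := Nat.ceil_lt_add_one (by positivity)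
  have hR3 : ((R : ℝ) + 1) ≤ 3 * rad T := by linarith
  have hRsq : ((R : ℝ) + 1) ^ 2 ≤ 9 * rad T ^ 2 := by nlinarith [Nat.cast_nonneg (α := ℝ) R]
  have hR4 : ((R : ℝ) + 1) ^ 4 ≤ 81 * rad T ^ 4 := by
    calc ((R : ℝ) + 1) ^ 4 ≤ (3 * rad T) ^ 4 := pow_le_pow_left₀ (by positivity) hR3 4
      _ = 81 * rad T ^ 4 := by ring
  have hRY : (R + 1) ^ 2 ≤ yy s₀ := by
    have : ((R : ℝ) + 1) ^ 2 ≤ yy s₀ := by
      have : 9 * rad T ^ 2 ≤ 3 * rad T ^ 3 := by nlinarith [sq_nonneg (rad T)]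
      linarith
    exact_mod_cast this
  -- the number of events
  obtain ⟨n, hn⟩ := hTERM ν σ2 M R s₀ θ hoff hL hYpos hθ0
  have he := hn n le_rfl
  obtain ⟨hs1, hs2, hs3, hs4, hs5⟩ := hSUM ν σ2 M R n s₀ hoff hL hYpos
  have hs4' := hs4 hRY
  have hEN := ENF_large hSUM hMOM ν σ2 M hoff hθ8 hL (by linarith) hrσ hR1 hRsq hYlow hZ he
  set p := run (stepF ν R) s₀ n with hp
  -- anti-concentration
  obtain ⟨hn1, hn2⟩ := num_ac2 (r := rad T) (σ2 := σ2) (K := K) (by linarith) hσ hK0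
  have hBle : 130 * M ^ 3 * (yy s₀ : ℝ) ^ 2 * ((R : ℝ) + 1) ^ 4 ≤ K * rad T ^ 10 := by
    have h1 : (yy s₀ : ℝ) ^ 2 ≤ (5 * rad T ^ 3) ^ 2 :=
      pow_le_pow_left₀ (Nat.cast_nonneg _) hYhigh 2
    calc 130 * M ^ 3 * (yy s₀ : ℝ) ^ 2 * ((R : ℝ) + 1) ^ 4
        ≤ 130 * M ^ 3 * (5 * rad T ^ 3) ^ 2 * (81 * rad T ^ 4) := by
          apply mul_le_mul _ hR4 (by positivity) (by positivity)
          exact mul_le_mul_of_nonneg_left h1 (by positivity)
      _ = 263250 * (M ^ 3 * rad T ^ 10) := by ring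
      _ ≤ 270000 * (M ^ 3 * rad T ^ 10) :=
          mul_le_mul_of_nonneg_right (by norm_num) (by positivity)
      _ = K * rad T ^ 10 := by rw [hK]; ring
  have hac := hAC St p yy (yy s₀) (σ2 * (rad T ^ 5 / 256)) (K * rad T ^ 10) (by positivity)
    (by positivity) hs1 (by
      rw [hs3, ENNReal.ofReal_mul hσ.le]
      exact mul_le_mul_right hEN _)
    (hs4'.trans (ENNReal.ofReal_le_ofReal hBle))
  rw [hn1, hn2, ← hκ, ← hc₃] at hac
  obtain ⟨hup, hdown⟩ := hac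
  -- termination on the support
  have hone : ∀ s, p s ≠ 0 → Phi ν (fun _ => True) s = 1 := by
    refine eq_one_of_Ex p (Phi ν (fun _ => True)) (fun s => Phi_le_one ν _ s) ?_
    rw [← hABF ν (fun _ => True) R n s₀, ht]
  have hκr : 0 ≤ rad T ^ 2 * Real.sqrt (rad T) := by positivity
  constructor
  · refine transferF hABF ν _ R n s₀ c₃ θ 1 hθ0.le hθ2 zero_le_one he _ hup ?_
    intro s hs hf hP
    have h1 : (T : ℝ) + κ / 2 * (rad T ^ 2 * Real.sqrt (rad T)) ≤ yy s := by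
      have : (yy s₀ : ℝ) + κ * (rad T ^ 2 * Real.sqrt (rad T)) ≤ yy s := hP
      linarith [hY1.1]
    rw [outer_froz hB hI ν (by linarith) hR1 hc hcκ hc2 hr1 hf
      ((hI.1 ν R n s₀ s hL h0 hs).2) h1 (hone s hs), ENNReal.ofReal_one]
  · refine transferF hABF ν _ R n s₀ c₃ θ (1 / 4) hθ0.le hθ2 (by norm_num) he _ hdown ?_
    intro s hs hf hP
    have h1 : (yy s : ℝ) ≤ T - κ / 2 * (rad T ^ 2 * Real.sqrt (rad T)) := by
      have : (yy s : ℝ) ≤ yy s₀ - κ * (rad T ^ 2 * Real.sqrt (rad T)) := hP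
      linarith [hY1.2]
    exact inner_froz hB hI hH hMK ν hoff hr hR1 hc hcκ hc2 hr1 hf h1 (hone s hs)

/-- **Piece FINF.** -/
theorem finF : S_FINF := by
  intro hOFF hSUM hTERM hAC hB hMOM hABF hH hMK hI ν hν
  obtain ⟨σ2, M, hoff⟩ := hOFF ν hν
  have hσ := hoff.pos
  have hM1 := hoff.one
  have hM0 : 0 < M := by linarith
  set K := 270000 * M ^ 3 with hK
  have hK0 : 0 < K := by positivity
  set κ := σ2 * Real.sqrt (σ2 / (256 * K)) / 1024 with hκ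
  have hκ0 : 0 < κ := by positivity
  set c₃ := σ2 ^ 2 / (1048576 * K) with hc₃
  have hc₃0 : 0 < c₃ := by positivity
  set θ := min (c₃ / 2) (1 / 8) with hθ
  have hθ0 : 0 < θ := lt_min (by positivity) (by norm_num)
  have hθ2 : 2 * θ ≤ c₃ := by
    have : θ ≤ c₃ / 2 := min_le_left _ _
    linarith
  have hθ8 : θ ≤ 1 / 8 := min_le_right _ _
  set c := min (1 / 4 * θ) (κ / 2 / 120) with hcdef
  have hc0 : 0 < c := lt_min (by positivity) (by positivity)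
  have hcθ : c ≤ 1 / 4 * θ := min_le_left _ _
  have hcκ : c ≤ κ / 2 / 120 := min_le_right _ _
  have hc2 : c ≤ 1 / 2 := by linarith
  refine ⟨c, hc0, fun A₀ t₀ h0 => ?_⟩
  set C₀ : ℝ := A₀.card + t₀ with hC₀
  have hC₀0 : 0 ≤ C₀ := by positivity
  set Z₀ : ℝ := ((∑ z ∈ A₀, nsq z : ℕ) : ℝ) with hZ₀
  have hZ₀0 : 0 ≤ Z₀ := Nat.cast_nonneg _
  obtain ⟨T₀, hT₀⟩ := rad_large
    (10 + 96 * σ2 + c⁻¹ ^ 2 + 2 * C₀ + C₀ / (κ / 2) + 256 * Z₀)
  refine ⟨max T₀ t₀, le_max_right _ _, fun T hT ht => ?_⟩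
  have hrad := hT₀ T (le_trans (le_max_left _ _) hT)
  have htT : t₀ ≤ T := le_trans (le_max_right _ _) hT
  have hc2pos : 0 ≤ c⁻¹ ^ 2 := by positivity
  have hq : 0 ≤ C₀ / (κ / 2) := by positivity
  have hr10 : 10 ≤ rad T := by linarith
  have hrσ : 96 * σ2 ≤ rad T := by linarith
  have hrc : c⁻¹ ^ 2 ≤ rad T := by linarith
  have hr1 : 1 ≤ c * Real.sqrt (rad T) := by
    have h1 : c⁻¹ ≤ Real.sqrt (rad T) := Real.le_sqrt_of_sq_le hrc
    calc (1 : ℝ) = c * c⁻¹ := by field_simp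
      _ ≤ c * Real.sqrt (rad T) := mul_le_mul_of_nonneg_left h1 hc0.le
  have hsq1 : 1 ≤ Real.sqrt (rad T) := Real.one_le_sqrt.2 (by linarith)
  have hpow : ∀ k : ℕ, 1 ≤ k → rad T ≤ rad T ^ k := fun k hk =>
    le_self_pow₀ (by linarith) (by omega)
  have hY : |(yy (⟨A₀, [], T - t₀⟩ : St) : ℝ) - T| ≤ C₀ := by
    have : (yy (⟨A₀, [], T - t₀⟩ : St) : ℝ) = A₀.card + (T - t₀) := by
      unfold yy
      simp only [List.length_nil, add_zero]
      rw [Nat.cast_add, Nat.cast_sub htT]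
    rw [this, abs_le]
    have h1 : (0 : ℝ) ≤ A₀.card := Nat.cast_nonneg _
    have h2 : (0 : ℝ) ≤ t₀ := Nat.cast_nonneg _
    constructor <;> linarith
  have hC1 : C₀ ≤ rad T ^ 3 / 2 := by
    have := hpow 3 (by norm_num)
    linarith
  have hC2 : C₀ ≤ κ / 2 * (rad T ^ 2 * Real.sqrt (rad T)) := by
    have h1 : C₀ / (κ / 2) ≤ rad T ^ 2 * Real.sqrt (rad T) := by
      have h2 := hpow 2 (by norm_num)
      have h3 : rad T ^ 2 * 1 ≤ rad T ^ 2 * Real.sqrt (rad T) :=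
        mul_le_mul_of_nonneg_left hsq1 (by positivity)
      linarith
    rw [div_le_iff₀ (by positivity)] at h1
    linarith
  have hZ : (ZZ (⟨A₀, [], T - t₀⟩ : St) : ℝ) ≤ rad T ^ 5 / 256 := by
    have h1 : (ZZ (⟨A₀, [], T - t₀⟩ : St) : ℝ) = Z₀ := by
      unfold ZZ
      simp [hZ₀]
    rw [h1]
    have := hpow 5 (by norm_num)
    linarith
  obtain ⟨h1, h2⟩ := coreF hSUM hTERM hAC hB hMOM hABF hH hMK hI ν σ2 M hoff T
    ⟨A₀, [], T - t₀⟩ K κ c₃ θ c C₀ hK hκ hc₃ hθ0 hθ2 hθ8 hc0 hcκ hc2 hr10 hrσ hr1 h0 rfl hY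
    hC1 hC2 hZ ht
  exact ⟨(ENNReal.ofReal_le_ofReal (by linarith)).trans h1,
    (ENNReal.ofReal_le_ofReal hcθ).trans h2⟩

end Pool.Agent.K1H53.BI
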