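import Pool.Agent.K1H53.BI.Fin0

/-!
# The piece FIN
-/

set_option autoImplicit false

open scoped ENNReal
open Finset

namespace Pool.Agent.K1H53.BI

/-- Chebyshev. -/
theorem cheb {α : Type} (p : PMF α) (y : α → ℕ) (T : ℕ) (W : ℝ) (hT : 0 < T)
    (h : Ex p (fun a => ENNReal.ofReal (((y a : ℝ) - T) ^ 2)) ≤ ENNReal.ofReal W)
    (hW : W ≤ (T : ℝ) ^ 2 / 32) :
    Ex p (ind fun a => (T : ℝ) / 2 ≤ |(y a : ℝ) - T|) ≤ ENNReal.ofReal (1 / 8) := by
  have hT' : (0 : ℝ) < T := by exact_mod_cast hT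
  have h1 : ENNReal.ofReal (((T : ℝ) / 2) ^ 2) *
      Ex p (ind fun a => (T : ℝ) / 2 ≤ |(y a : ℝ) - T|) ≤
      ENNReal.ofReal (((T : ℝ) / 2) ^ 2) * ENNReal.ofReal (1 / 8) := by
    rw [← Ex_const_mul, ← ENNReal.ofReal_mul (by positivity)]
    refine le_trans (Ex_mono p fun a _ => ?_) (h.trans (ENNReal.ofReal_le_ofReal ?_))
    · unfold ind
      split_ifs with hc
      · rw [mul_one]
        refine ENNReal.ofReal_le_ofReal ?_
        rw [← sq_abs ((y a : ℝ) - T)]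
        exact pow_le_pow_left₀ (by positivity) hc 2
      · simp
    · calc W ≤ (T : ℝ) ^ 2 / 32 := hW
        _ = ((T : ℝ) / 2) ^ 2 * (1 / 8) := by ring
  have h0 : ENNReal.ofReal (((T : ℝ) / 2) ^ 2) ≠ 0 := by
    rw [Ne, ENNReal.ofReal_eq_zero, not_le]; positivity
  exact (ENNReal.mul_le_mul_iff_right h0 ENNReal.ofReal_ne_top).1 h1

/-- The pointwise bound for `ZZ`. -/
theorem ZZ_large (hMOM : S_MOM) {T : ℕ} (hr : 3 ≤ rad T) {s : St}
    (h : (T : ℝ) / 2 ≤ (s.A.card : ℝ)) : ENNReal.ofReal (rad T ^ 5 / 64) ≤ (ZZ s : ℝ≥0∞) := by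
  have hr0 : 0 ≤ rad T := by linarith
  have hπ := Real.pi_gt_three
  have h1 := rad_cube T
  have h2 : 4 * rad T ^ 3 ≤ T := by
    rw [← h1]
    have : 0 ≤ rad T ^ 3 := by positivity
    nlinarith
  have h3 : rad T ^ 3 ≤ s.A.card := by
    have : 0 ≤ rad T ^ 3 := by positivity
    linarith
  have h27 : (27 : ℝ) ≤ rad T ^ 3 := by
    calc (27 : ℝ) = 3 ^ 3 := by norm_num
      _ ≤ rad T ^ 3 := pow_le_pow_left₀ (by norm_num) hr 3
  have h16 : 16 ≤ s.A.card := by
    have : (16 : ℝ) ≤ s.A.card := by linarith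
    exact_mod_cast this
  have h4 := hMOM s.A h16
  have h5 : rad T ^ 5 ≤ (s.A.card : ℝ) ^ ((5 : ℝ) / 3) := by
    have e : rad T ^ 5 = (rad T ^ 3) ^ ((5 : ℝ) / 3) := by
      rw [← Real.rpow_natCast (rad T) 3, ← Real.rpow_mul hr0, ← Real.rpow_natCast]
      norm_num
    rw [e]
    exact Real.rpow_le_rpow (by positivity) h3 (by norm_num)
  have h6 : rad T ^ 5 / 64 ≤ (ZZ s : ℝ) := by
    unfold ZZ
    push_cast
    have : (0 : ℝ) ≤ ((s.L.map nsq).sum : ℕ) := Nat.cast_nonneg _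
    have h7 : rad T ^ 5 / 64 ≤ (s.A.card : ℝ) ^ ((5 : ℝ) / 3) / 64 :=
      div_le_div_of_nonneg_right h5 (by norm_num)
    push_cast at this
    linarith
  calc ENNReal.ofReal (rad T ^ 5 / 64) ≤ ENNReal.ofReal (ZZ s : ℝ) := ENNReal.ofReal_le_ofReal h6
    _ = (ZZ s : ℝ≥0∞) := ENNReal.ofReal_natCast _

/-- The four cases. -/
theorem half_le (p : PMF St) (R T : ℕ) :
    (1 : ℝ≥0∞) ≤ Ex p (ind fun s => (T : ℝ) / 2 ≤ (s.A.card : ℝ)) + Ex p (ind fun s => ¬ In R s) +
      Ex p (ind fun s => In R s ∧ ¬ Fin' s) +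
      Ex p (ind fun s => (T : ℝ) / 2 ≤ |(yy s : ℝ) - T|) := by
  rw [← Ex_add, ← Ex_add, ← Ex_add, ← Ex_const p 1]
  refine Ex_mono p fun s _ => ?_
  by_cases a1 : In R s
  · by_cases a2 : Fin' s
    · by_cases a3 : (T : ℝ) / 2 ≤ |(yy s : ℝ) - T|
      · rw [ind_yes (P := fun s : St => (T : ℝ) / 2 ≤ |(yy s : ℝ) - T|) a3]
        exact le_add_self
      · have hy : yy s = s.A.card := by
          unfold yy
          rw [a2.1, a2.2]
          simp
        have a4 : (T : ℝ) / 2 ≤ (s.A.card : ℝ) := by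
          rw [hy] at a3
          push Not at a3
          have := (abs_lt.1 a3).1
          linarith
        rw [ind_yes (P := fun s : St => (T : ℝ) / 2 ≤ (s.A.card : ℝ)) a4, add_assoc, add_assoc]
        exact le_self_add
    · rw [ind_yes (P := fun s : St => In R s ∧ ¬ Fin' s) ⟨a1, a2⟩]
      exact le_add_self.trans le_self_add
  · rw [ind_yes (P := fun s : St => ¬ In R s) a1]
    exact (le_add_self.trans le_self_add).trans le_self_add

/-- Transfer to the process. -/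
theorem transfer (hREL : S_REL) (ν : PMF ℕ) (R T n : ℕ) (c₃ θ : ℝ) (hθ0 : 0 ≤ θ)
    (hθ3 : 3 * θ ≤ c₃)
    (hq : Ex (law (stepD ν R) T n) (ind fun s => ¬ In R s) ≤ ENNReal.ofReal θ)
    (he : Ex (law (stepD ν R) T n) (ind fun s => In R s ∧ ¬ Fin' s) ≤ ENNReal.ofReal θ)
    (P : St → Prop) (G : Finset V → Prop) (hPG : ∀ s, Fin' s → P s → G s.A)
    (hP : ENNReal.ofReal c₃ ≤ Ex (law (stepD ν R) T n) (ind P)) :
    ENNReal.ofReal θ ≤ prob ν T G := by
  have h1 : ENNReal.ofReal θ ≤ Ex (law (stepD ν R) T n)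
      (fun s => ind (In R) s * ind (fun s => Fin' s ∧ P s) s) := by
    refine tri (c₃ := c₃) ?_ hq he hθ0 hθ3
    refine hP.trans ?_
    rw [← Ex_add, ← Ex_add]
    refine Ex_mono _ fun s _ => ?_
    refine ind_le P s fun a0 => ?_
    by_cases a1 : In R s
    · by_cases a2 : Fin' s
      · rw [ind_yes a1, ind_yes (P := fun s => Fin' s ∧ P s) ⟨a2, a0⟩, one_mul, add_assoc]
        exact le_self_add
      · rw [ind_yes (P := fun s : St => In R s ∧ ¬ Fin' s) ⟨a1, a2⟩]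
        exact le_add_self
    · rw [ind_yes (P := fun s : St => ¬ In R s) a1]
      exact le_add_self.trans le_self_add
  rw [← (hREL ν R T).1 n (ind fun s => Fin' s ∧ P s)] at h1
  refine h1.trans ?_
  refine le_trans (Ex_mono _ fun s _ => ?_)
    (le_iSup (fun n => Ex (law (step ν) T n) (ind fun s => Fin' s ∧ G s.A)) n)
  by_cases a2 : Fin' s ∧ P s
  · rw [ind_yes (P := fun s : St => Fin' s ∧ G s.A) ⟨a2.1, hPG s a2.1 a2.2⟩,
      ind_yes (P := fun s : St => Fin' s ∧ P s) a2, mul_one]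
    exact ind_le (In R) s fun _ => le_rfl
  · rw [ind_no (P := fun s : St => Fin' s ∧ P s) a2, mul_zero]
    exact zero_le

/-- The core. -/
theorem core (hSUM : C_SUM) (hAC : S_AC) (hB : S_BALL) (hMOM : S_MOM) (hREL : S_REL)
    (hTERM : C_TERM) (ν : PMF ℕ) (σ2 M : ℝ) (hoff : Off ν σ2 M) (T : ℕ) (K κ c₃ θ c : ℝ)
    (hK : K = 190000 * M ^ 3) (hκ : κ = σ2 * Real.sqrt (σ2 / (128 * K)) / 512)
    (hc₃ : c₃ = σ2 ^ 2 / (262144 * K)) (hθ0 : 0 < θ) (hθ3 : 3 * θ ≤ c₃) (hθ8 : θ ≤ 1 / 8)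
    (hc : 0 < c) (hcκ : c ≤ κ / 120) (hc2 : c ≤ 1 / 2) (hr : 3 ≤ rad T)
    (hrσ : 72 * σ2 ≤ rad T) (hr1 : 1 ≤ c * Real.sqrt (rad T)) :
    ENNReal.ofReal θ ≤ prob ν T (fun A => c * Real.sqrt (rad T) ≤ devO T A) ∧
    ENNReal.ofReal θ ≤ prob ν T
      (fun A => c * Real.sqrt (rad T) ≤ devI T A ∨ rad T ≤ devO T A) := by
  set r := rad T with hrdef
  have hr0 : 0 ≤ r := by linarith
  have hM1 := hoff.one
  have hσ := hoff.pos
  have hM0 : 0 < M := by linarith
  have hK0 : 0 < K := by rw [hK]; positivity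
  have hπ := Real.pi_gt_three
  have hπ2 : Real.pi < 3.15 := Real.pi_lt_d2
  have hcube : 4 * Real.pi / 3 * r ^ 3 = T := rad_cube T
  have hr3 : 0 ≤ r ^ 3 := by positivity
  have hTlow : 4 * r ^ 3 ≤ T := by rw [← hcube]; nlinarith
  have hThigh : (T : ℝ) ≤ 4.2 * r ^ 3 := by rw [← hcube]; nlinarith
  have hT27 : (27 : ℝ) ≤ r ^ 3 := by
    calc (27 : ℝ) = 3 ^ 3 := by norm_num
      _ ≤ r ^ 3 := pow_le_pow_left₀ (by norm_num) hr 3
  have hTpos : 0 < T := by
    have : (0 : ℝ) < T := by linarith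
    exact_mod_cast this
  have hT' : (0 : ℝ) < T := by exact_mod_cast hTpos
  -- the radius
  set R : ℕ := ⌈2 * r⌉₊ with hR
  have hR1 : 2 * r ≤ R := Nat.le_ceil _
  have hR2 : (R : ℝ) < 2 * r + 1 := Nat.ceil_lt_add_one (by positivity)
  have hR3 : ((R : ℝ) + 1) ≤ 3 * r := by linarith
  have hRsq : ((R : ℝ) + 1) ^ 2 ≤ 9 * r ^ 2 := by nlinarith [Nat.cast_nonneg (α := ℝ) R]
  have hR4 : ((R : ℝ) + 1) ^ 4 ≤ 81 * r ^ 4 := by
    calc ((R : ℝ) + 1) ^ 4 ≤ (3 * r) ^ 4 := pow_le_pow_left₀ (by positivity) hR3 4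
      _ = 81 * r ^ 4 := by ring
  have hRT : (R + 1) ^ 2 ≤ T := by
    have : ((R : ℝ) + 1) ^ 2 ≤ T := by
      have : 9 * r ^ 2 ≤ 4 * r ^ 3 := by nlinarith [sq_nonneg r]
      linarith
    exact_mod_cast this
  -- the number of events
  obtain ⟨hT1, -, hT3⟩ := hTERM ν σ2 M T hoff hTpos
  obtain ⟨n, hn⟩ := hT1 R θ hθ0
  have he := hn n le_rfl
  obtain ⟨hs1, hs2, hs3, hs4, hs5⟩ := hSUM ν σ2 M R T n hoff hTpos hRT
  obtain ⟨hrel1, -, -⟩ := hREL ν R T
  set p := law (stepD ν R) T n with hp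
  have hrelI : Ex (law (step ν) T n) (ind (In R)) = Ex p (ind (In R)) := by
    have := hrel1 n (fun _ => 1)
    simpa using this
  have hrelN : Ex (law (step ν) T n) (ind fun s => ¬ In R s) = Ex p (ind fun s => ¬ In R s) := by
    have e1 := ind_add_not (law (step ν) T n) (In R)
    have e2 := ind_add_not p (In R)
    rw [hrelI] at e1
    have hfin : Ex p (ind (In R)) ≠ ⊤ := ne_top_of_le_ne_top ENNReal.one_ne_top (ind_le_one _ _)
    exact (ENNReal.add_right_inj hfin).1 (e1.trans e2.symm)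
  have hcr : c * Real.sqrt r ≤ r := by
    have hq1 : 1 ≤ Real.sqrt r := Real.one_le_sqrt.2 (by linarith)
    have hqr : Real.sqrt r ≤ r := by
      have : Real.sqrt r * Real.sqrt r = r := Real.mul_self_sqrt hr0
      nlinarith
    nlinarith
  rcases le_or_gt (ENNReal.ofReal θ) (Ex p (ind fun s => ¬ In R s)) with hq | hq
  · -- the aggregate leaves the large ball
    rw [← hrelN] at hq
    exact ⟨hq.trans (hT3 _ R n fun s hs => hcr.trans (devO_of_not_In hR1 hs)),
      hq.trans (hT3 _ R n fun s hs => Or.inr (devO_of_not_In hR1 hs))⟩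
  · -- the aggregate stays in the large ball
    have hq' := hq.le
    -- Chebyshev
    have hch : Ex p (ind fun s => (T : ℝ) / 2 ≤ |(yy s : ℝ) - T|) ≤ ENNReal.ofReal (1 / 8) := by
      refine cheb p yy T (σ2 * (T * (9 * r ^ 2))) hTpos ?_ ?_
      · rw [hs3, ENNReal.ofReal_mul hσ.le]
        refine mul_le_mul_right (hs2.trans ?_) _
        have e1 : ((T : ℝ≥0∞) * ((R : ℝ≥0∞) + 1) ^ 2) =
            ENNReal.ofReal ((T : ℝ) * ((R : ℝ) + 1) ^ 2) := by
          rw [ENNReal.ofReal_mul (by positivity), ENNReal.ofReal_natCast,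
            ENNReal.ofReal_pow (by positivity), ENNReal.ofReal_add (by positivity) (by norm_num),
            ENNReal.ofReal_natCast, ENNReal.ofReal_one]
        rw [e1]
        exact ENNReal.ofReal_le_ofReal (mul_le_mul_of_nonneg_left hRsq hT'.le)
      · have h1 : 288 * σ2 * r ^ 2 ≤ T := by
          have : 4 * (72 * σ2) * r ^ 2 ≤ 4 * r * r ^ 2 := by
            apply mul_le_mul_of_nonneg_right _ (by positivity)
            linarith
          nlinarith
        calc σ2 * (T * (9 * r ^ 2)) = (T : ℝ) * (288 * σ2 * r ^ 2) / 32 := by ring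
          _ ≤ (T : ℝ) * T / 32 := by
            apply div_le_div_of_nonneg_right _ (by norm_num)
            exact mul_le_mul_of_nonneg_left h1 hT'.le
          _ = (T : ℝ) ^ 2 / 32 := by ring
    -- the aggregate is large with probability at least one half
    have hhalf : ENNReal.ofReal (1 / 2) ≤ Ex p (ind fun s => (T : ℝ) / 2 ≤ (s.A.card : ℝ)) := by
      set X := Ex p (ind fun s => (T : ℝ) / 2 ≤ (s.A.card : ℝ)) with hX
      have h1 : (1 : ℝ≥0∞) ≤ X + Ex p (ind fun s => ¬ In R s) +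
          Ex p (ind fun s => In R s ∧ ¬ Fin' s) +
          Ex p (ind fun s => (T : ℝ) / 2 ≤ |(yy s : ℝ) - T|) := by
        exact half_le p R T
      by_contra hX2
      push Not at hX2
      have h2 : X + Ex p (ind fun s => ¬ In R s) + Ex p (ind fun s => In R s ∧ ¬ Fin' s) +
          Ex p (ind fun s => (T : ℝ) / 2 ≤ |(yy s : ℝ) - T|) <
          ENNReal.ofReal (1 / 2) + ENNReal.ofReal (1 / 8) + ENNReal.ofReal (1 / 8) +
            ENNReal.ofReal (1 / 8) := by
        have hθ' : ENNReal.ofReal θ ≤ ENNReal.ofReal (1 / 8) := ENNReal.ofReal_le_ofReal hθ8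
        have b1 := hq'.trans hθ'
        have b2 := he.trans hθ'
        have t1 := ne_top_of_le_ne_top ENNReal.ofReal_ne_top b1
        have t2 := ne_top_of_le_ne_top ENNReal.ofReal_ne_top b2
        have t3 := ne_top_of_le_ne_top ENNReal.ofReal_ne_top hch
        exact ENNReal.add_lt_add_of_lt_of_le t3
          (ENNReal.add_lt_add_of_lt_of_le t2
            (ENNReal.add_lt_add_of_lt_of_le t1 hX2 b1) b2) hch
      rw [← ENNReal.ofReal_add (by norm_num) (by norm_num),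
        ← ENNReal.ofReal_add (by norm_num) (by norm_num),
        ← ENNReal.ofReal_add (by norm_num) (by norm_num)] at h2
      have h3 := h1.trans_lt h2
      rw [← ENNReal.ofReal_one] at h3
      exact absurd h3 (not_lt.2 (ENNReal.ofReal_le_ofReal (by norm_num)))
    -- lower bound for the number of events
    have hEN : ENNReal.ofReal (r ^ 5 / 128) ≤ EN ν R T n := by
      rw [← hs5]
      have h1 : ENNReal.ofReal (r ^ 5 / 64) *
          Ex p (ind fun s => (T : ℝ) / 2 ≤ (s.A.card : ℝ)) ≤ Ex p (fun s => (ZZ s : ℝ≥0∞)) := by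
        rw [← Ex_const_mul]
        refine Ex_mono p fun s _ => ?_
        unfold ind
        split_ifs with hs
        · rw [mul_one]
          exact ZZ_large hMOM hr hs
        · simp
      refine le_trans ?_ h1
      calc ENNReal.ofReal (r ^ 5 / 128) = ENNReal.ofReal (r ^ 5 / 64) * ENNReal.ofReal (1 / 2) := by
            rw [← ENNReal.ofReal_mul (by positivity)]
            congr 1
            ring
        _ ≤ _ := mul_le_mul_right hhalf _
    -- anti-concentration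
    obtain ⟨hn1, hn2⟩ := num_ac (r := r) (σ2 := σ2) (K := K) (by linarith) hσ hK0
    have hBle : 130 * M ^ 3 * (T : ℝ) ^ 2 * ((R : ℝ) + 1) ^ 4 ≤ K * r ^ 10 := by
      have h1 : (T : ℝ) ^ 2 ≤ (4.2 * r ^ 3) ^ 2 := pow_le_pow_left₀ hT'.le hThigh 2
      calc 130 * M ^ 3 * (T : ℝ) ^ 2 * ((R : ℝ) + 1) ^ 4
          ≤ 130 * M ^ 3 * (4.2 * r ^ 3) ^ 2 * (81 * r ^ 4) := by
            apply mul_le_mul _ hR4 (by positivity) (by positivity)
            exact mul_le_mul_of_nonneg_left h1 (by positivity)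
        _ = 130 * 17.64 * 81 * (M ^ 3 * r ^ 10) := by ring
        _ ≤ 190000 * (M ^ 3 * r ^ 10) :=
            mul_le_mul_of_nonneg_right (by norm_num) (by positivity)
        _ = K * r ^ 10 := by rw [hK]; ring
    have hac := hAC St p yy T (σ2 * (r ^ 5 / 128)) (K * r ^ 10) (by positivity) (by positivity)
      hs1 (by
        rw [hs3, ENNReal.ofReal_mul hσ.le]
        exact mul_le_mul_right hEN _)
      (hs4.trans (by
        refine ENNReal.ofReal_le_ofReal ?_
        exact hBle))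
    rw [hn1, hn2, ← hκ, ← hc₃] at hac
    obtain ⟨hup, hdown⟩ := hac
    have hyy : ∀ s, Fin' s → (yy s : ℝ) = s.A.card := by
      intro s hs
      unfold yy
      rw [hs.1, hs.2]
      simp
    constructor
    · refine transfer hREL ν R T n c₃ θ hθ0.le hθ3 hq' he
        (fun s => (T : ℝ) + κ * (r ^ 2 * Real.sqrt r) ≤ yy s) _ (fun s hs hP => ?_) hup
      have h1 := num_up (r := r) (c := c) (κ := κ) (by linarith) hc hcκ hc2 hr1
      rw [hcube] at h1
      rw [hyy s hs] at hP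
      exact devO_of_card hB (by positivity) (h1.trans_le hP)
    · refine transfer hREL ν R T n c₃ θ hθ0.le hθ3 hq' he
        (fun s => (yy s : ℝ) ≤ T - κ * (r ^ 2 * Real.sqrt r)) _ (fun s hs hP => ?_) hdown
      obtain ⟨h1, h2⟩ := num_down (r := r) (c := c) (κ := κ) (by linarith) hc hcκ hc2 hr1
      rw [hcube] at h1
      rw [hyy s hs] at hP
      exact Or.inl (devI_of_card hB h2 (hP.trans_lt h1))

/-- **Piece FIN.** -/
theorem fin : S_FIN := by
  intro hOFF _ hSUM hAC hB hMOM hREL hTERM ν hν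
  obtain ⟨σ2, M, hoff⟩ := hOFF ν hν
  have hσ := hoff.pos
  have hM1 := hoff.one
  have hM0 : 0 < M := by linarith
  set K := 190000 * M ^ 3 with hK
  have hK0 : 0 < K := by positivity
  set κ := σ2 * Real.sqrt (σ2 / (128 * K)) / 512 with hκ
  have hκ0 : 0 < κ := by positivity
  set c₃ := σ2 ^ 2 / (262144 * K) with hc₃
  have hc₃0 : 0 < c₃ := by positivity
  set θ := min (c₃ / 3) (1 / 8) with hθ
  have hθ0 : 0 < θ := lt_min (by positivity) (by norm_num)
  have hθ3 : 3 * θ ≤ c₃ := by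
    have : θ ≤ c₃ / 3 := min_le_left _ _
    linarith
  have hθ8 : θ ≤ 1 / 8 := min_le_right _ _
  set c := min θ (κ / 120) with hcdef
  have hc0 : 0 < c := lt_min hθ0 (by positivity)
  have hcθ : c ≤ θ := min_le_left _ _
  have hcκ : c ≤ κ / 120 := min_le_right _ _
  have hc2 : c ≤ 1 / 2 := by linarith
  obtain ⟨T₀, hT₀⟩ := rad_large (max (max 3 (72 * σ2)) (c⁻¹ ^ 2))
  refine ⟨c, T₀, hc0, fun T hT => ?_⟩
  have hrad := hT₀ T hT
  have hr3 : 3 ≤ rad T := le_trans (le_trans (le_max_left _ _) (le_max_left _ _)) hrad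
  have hrσ : 72 * σ2 ≤ rad T := le_trans (le_trans (le_max_right _ _) (le_max_left _ _)) hrad
  have hrc : c⁻¹ ^ 2 ≤ rad T := le_trans (le_max_right _ _) hrad
  have hr1 : 1 ≤ c * Real.sqrt (rad T) := by
    have h1 : c⁻¹ ≤ Real.sqrt (rad T) := Real.le_sqrt_of_sq_le hrc
    calc (1 : ℝ) = c * c⁻¹ := by field_simp
      _ ≤ c * Real.sqrt (rad T) := mul_le_mul_of_nonneg_left h1 hc0.le
  have hTpos : 1 ≤ T := by
    by_contra hc
    have h0 : T = 0 := by omega
    have h1 := rad_cube T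
    rw [h0] at h1 hr3
    have h27 : (27 : ℝ) ≤ rad 0 ^ 3 := by
      calc (27 : ℝ) = 3 ^ 3 := by norm_num
        _ ≤ rad 0 ^ 3 := pow_le_pow_left₀ (by norm_num) hr3 3
    have hπ := Real.pi_gt_three
    simp only [Nat.cast_zero] at h1
    nlinarith
  obtain ⟨h1, h2⟩ := core hSUM hAC hB hMOM hREL hTERM ν σ2 M hoff T K κ c₃ θ c hK hκ hc₃ hθ0 hθ3
    hθ8 hc0 hcκ hc2 hr3 hrσ hr1
  have hcθ' : ENNReal.ofReal c ≤ ENNReal.ofReal θ := ENNReal.ofReal_le_ofReal hcθ
  exact ⟨(hTERM ν σ2 M T hoff hTpos).2.1, hcθ'.trans h1, hcθ'.trans h2⟩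

end Pool.Agent.K1H53.BI
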