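import Mathlib

/-!
# Branching internal DLA in three dimensions: definitions and pieces

The aggregate after `T - 1` launches is described event by event. A state consists of the aggregate
`A`, the list `L` of the positions of the moving particles of the current branching random walk, and
the number `m` of launches which are still to come. At every event a uniformly chosen moving particle
(the one whose exponential clock rings first) is replaced by its children.
-/

set_option autoImplicit false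

open scoped ENNReal
open Finset

namespace Pool.Agent.K1H53.BI

/-- Sites of the lattice. -/
abbrev V := Fin 3 → ℤ

/-- Squared Euclidean norm. -/
def nsq (x : V) : ℕ := ∑ i, (x i).natAbs ^ 2

/-- The six unit vectors. -/
def dir (e : Fin 3 × Bool) : V := Pi.single e.1 (if e.2 then 1 else -1)

/-- State of the growth process. -/
structure St where
  /-- the aggregate -/
  A : Finset V
  /-- the moving particles -/
  L : List V
  /-- the launches still to come -/
  m : ℕ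

/-- A particle arrives at `y`: it stops if `y` is outside the aggregate (then `y` joins the
aggregate), otherwise it keeps moving. -/
def put (s : St) (y : V) : St :=
  if y ∈ s.A then ⟨s.A, y :: s.L, s.m⟩ else ⟨insert y s.A, s.L, s.m⟩

/-- `k` children of a particle at `x`, each makes a step of simple random walk. -/
noncomputable def children (x : V) : ℕ → St → PMF St
  | 0, s => PMF.pure s
  | k + 1, s => (PMF.uniformOfFintype (Fin 3 × Bool)).bind fun e => children x k (put s (x + dir e))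

/-- The first clock rings: a uniformly chosen moving particle is replaced by its children. If no
particle moves, the next branching random walk is launched. -/
noncomputable def step (ν : PMF ℕ) (s : St) : PMF St :=
  if h : s.L = [] then PMF.pure (if s.m = 0 then s else ⟨s.A, [0], s.m - 1⟩)
  else (PMF.uniformOfFinset (range s.L.length)
      ⟨0, Finset.mem_range.2 (List.length_pos_iff.2 h)⟩).bind fun i =>
    ν.bind fun k => children (s.L.getD i 0) k ⟨s.A, s.L.eraseIdx i, s.m⟩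

/-- Law after `n` events, started with the aggregate `{0}` and `T - 1` launches to come. -/
noncomputable def law (κ : St → PMF St) (T : ℕ) : ℕ → PMF St
  | 0 => PMF.pure ⟨{0}, [], T - 1⟩
  | n + 1 => (law κ T n).bind κ

/-- Expectation of a nonnegative function. -/
noncomputable def Ex {α : Type} (p : PMF α) (g : α → ℝ≥0∞) : ℝ≥0∞ := ∑' a, p a * g a

theorem Ex_pure {α : Type} (a : α) (g : α → ℝ≥0∞) : Ex (PMF.pure a) g = g a := by
  classical
  unfold Ex
  rw [tsum_eq_single a]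
  · simp
  · intro b hb
    simp [PMF.pure_apply, hb]

theorem Ex_bind {α β : Type} (p : PMF α) (f : α → PMF β) (g : β → ℝ≥0∞) :
    Ex (p.bind f) g = Ex p (fun a => Ex (f a) g) := by
  unfold Ex
  simp only [PMF.bind_apply, ← ENNReal.tsum_mul_right, ← ENNReal.tsum_mul_left]
  rw [ENNReal.tsum_comm]
  simp only [mul_assoc]

theorem Ex_add {α : Type} (p : PMF α) (g h : α → ℝ≥0∞) :
    Ex p (fun a => g a + h a) = Ex p g + Ex p h := by
  unfold Ex
  simp only [mul_add]
  exact ENNReal.tsum_add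

theorem Ex_const_mul {α : Type} (p : PMF α) (c : ℝ≥0∞) (g : α → ℝ≥0∞) :
    Ex p (fun a => c * g a) = c * Ex p g := by
  unfold Ex
  rw [← ENNReal.tsum_mul_left]
  exact tsum_congr fun a => mul_left_comm _ _ _

theorem Ex_const {α : Type} (p : PMF α) (c : ℝ≥0∞) : Ex p (fun _ => c) = c := by
  unfold Ex
  rw [ENNReal.tsum_mul_right, p.tsum_coe, one_mul]

/-- Monotonicity; it is enough to compare on the support. -/
theorem Ex_mono {α : Type} (p : PMF α) {g h : α → ℝ≥0∞} (H : ∀ a, p a ≠ 0 → g a ≤ h a) :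
    Ex p g ≤ Ex p h := by
  unfold Ex
  refine ENNReal.tsum_le_tsum fun a => ?_
  by_cases ha : p a = 0
  · simp [ha]
  · exact mul_le_mul_right (H a ha) _

theorem Ex_congr {α : Type} (p : PMF α) {g h : α → ℝ≥0∞} (H : ∀ a, p a ≠ 0 → g a = h a) :
    Ex p g = Ex p h :=
  le_antisymm (Ex_mono p fun a ha => (H a ha).le) (Ex_mono p fun a ha => (H a ha).ge)

open Classical in
/-- Indicator. -/
noncomputable def ind {α : Type} (P : α → Prop) (a : α) : ℝ≥0∞ := if P a then 1 else 0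

/-- All `T - 1` launches are finished. -/
def Fin' (s : St) : Prop := s.L = [] ∧ s.m = 0

/-- Probability that the aggregate `A(T)` has the property `G`. -/
noncomputable def prob (ν : PMF ℕ) (T : ℕ) (G : Finset V → Prop) : ℝ≥0∞ :=
  ⨆ n, Ex (law (step ν) T n) (ind fun s => Fin' s ∧ G s.A)

/-- Condition (H) on the offspring law. -/
structure CondH (ν : PMF ℕ) : Prop where
  mean : HasSum (fun k : ℕ => (ν k).toReal * (k : ℝ)) 1
  var : 0 < ∑' k : ℕ, (ν k).toReal * ((k : ℝ) - 1) ^ 2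
  expo : ∃ lam : ℝ, 0 < lam ∧ Summable fun k : ℕ => (ν k).toReal * Real.exp (lam * k)

/-- Euclidean norm. -/
noncomputable def nrm (x : V) : ℝ := Real.sqrt (nsq x)

/-- Radius of the ball of volume `t`. -/
noncomputable def rad (t : ℕ) : ℝ := (3 * t / (4 * Real.pi)) ^ ((1 : ℝ) / 3)

/-- Inner deviation. -/
noncomputable def devI (t : ℕ) (A : Finset V) : ℝ :=
  sInf {δ : ℝ | 0 ≤ δ ∧ ∀ z : V, nrm z < rad t - δ → z ∈ A}

/-- Outer deviation. -/
noncomputable def devO (t : ℕ) (A : Finset V) : ℝ :=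
  sInf {δ : ℝ | 0 ≤ δ ∧ ∀ z ∈ A, nrm z < rad t + δ}

/-- **Main theorem.** -/
def S_MAIN : Prop :=
  ∀ ν : PMF ℕ, CondH ν → ∃ (c : ℝ) (T₀ : ℕ), 0 < c ∧ ∀ T : ℕ, T₀ ≤ T →
    prob ν T (fun _ => True) = 1 ∧
    ENNReal.ofReal c ≤ prob ν T (fun A => c * Real.sqrt (rad T) ≤ devO T A) ∧
    ENNReal.ofReal c ≤ prob ν T
      (fun A => c * Real.sqrt (rad T) ≤ devI T A ∨ rad T ≤ devO T A)

/-! ## The stopped process and the three functions -/

/-- The aggregate is contained in the closed ball of radius `R`. -/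
def In (R : ℕ) (s : St) : Prop := ∀ z ∈ s.A, nsq z ≤ R ^ 2

open Classical in
/-- The process stopped when the aggregate leaves the ball of radius `R`. -/
noncomputable def stepD (ν : PMF ℕ) (R : ℕ) (s : St) : PMF St :=
  if In R s then step ν s else PMF.pure s

/-- Invariants of the process. -/
structure Good (s : St) : Prop where
  zero_mem : (0 : V) ∈ s.A
  act : ∀ x ∈ s.L, x ∈ s.A
  size : ∀ z ∈ s.A, nsq z ≤ s.A.card ^ 2

/-- Aggregate, moving particles and launches to come. -/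
def yy (s : St) : ℕ := s.A.card + s.L.length + s.m

/-- Bound for the expected number of events still to come in the ball. -/
def VV (R : ℕ) (s : St) : ℕ :=
  (s.L.map fun x => (R + 1) ^ 2 - nsq x).sum + s.m * (R + 1) ^ 2

/-- Sum of the squared norms. -/
def ZZ (s : St) : ℕ := ∑ z ∈ s.A, nsq z + (s.L.map nsq).sum

/-- A particle branches in the next event of the stopped process. -/
def Proc (R : ℕ) (s : St) : Prop := s.L ≠ [] ∧ In R s

/-- Moments of the offspring law. -/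
structure Off (ν : PMF ℕ) (σ2 M : ℝ) : Prop where
  pos : 0 < σ2
  le : σ2 ≤ M
  one : 1 ≤ M
  sum4 : Summable fun k : ℕ => (ν k).toReal * ((k : ℝ) - 1) ^ 4
  m1 : HasSum (fun k : ℕ => (ν k).toReal * ((k : ℝ) - 1)) 0
  m2 : HasSum (fun k : ℕ => (ν k).toReal * ((k : ℝ) - 1) ^ 2) σ2
  m3 : |∑' k : ℕ, (ν k).toReal * ((k : ℝ) - 1) ^ 3| ≤ M
  m4 : ∑' k : ℕ, (ν k).toReal * ((k : ℝ) - 1) ^ 4 ≤ M

/-! ## Pieces -/

/-- **Piece OFF.** -/
def S_OFF : Prop := ∀ ν : PMF ℕ, CondH ν → ∃ σ2 M : ℝ, Off ν σ2 M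

/-- **Piece INV.** The invariants hold along the (stopped or unstopped) process. -/
def S_INV : Prop :=
  ∀ (ν : PMF ℕ) (R T n : ℕ) (s : St),
    ((law (step ν) T n) s ≠ 0 → Good s) ∧ ((law (stepD ν R) T n) s ≠ 0 → Good s)

/-- **Piece GEN.** One branching event: the law of `yy`, the function `VV` on average over the
steps, and the cases in which nothing branches. -/
def S_GEN : Prop :=
  ∀ (ν : PMF ℕ) (R : ℕ) (s : St), Good s →
    (¬ Proc R s → ∃ s' : St, stepD ν R s = PMF.pure s' ∧ yy s' = yy s ∧ VV R s' = VV R s ∧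
      ZZ s' = ZZ s) ∧
    (∀ h : Proc R s,
      (∀ f : ℕ → ℝ≥0∞, Ex (stepD ν R s) (fun s' => f (yy s')) =
        Ex ν (fun k => f (yy s - 1 + k))) ∧
      (∀ f : ℕ → ℝ≥0∞, Ex (stepD ν R s) (fun s' => f (yy s') * (VV R s' : ℝ≥0∞)) ≤
        Ex (PMF.uniformOfFinset (range s.L.length)
            ⟨0, Finset.mem_range.2 (List.length_pos_iff.2 h.1)⟩) (fun i =>
          Ex ν (fun k => f (yy s - 1 + k) *
            (((VV R s - ((R + 1) ^ 2 - nsq (s.L.getD i 0))) +
              k * ((R + 1) ^ 2 - nsq (s.L.getD i 0) - 1) : ℕ) : ℝ≥0∞)))) ∧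
      (∀ i ∈ range s.L.length, 1 ≤ (R + 1) ^ 2 - nsq (s.L.getD i 0) ∧
        (R + 1) ^ 2 - nsq (s.L.getD i 0) ≤ VV R s))

/-- **Piece GZ.** The function `ZZ`. -/
def S_GZ : Prop :=
  ∀ (ν : PMF ℕ) (σ2 M : ℝ) (R : ℕ) (s : St), Off ν σ2 M → Good s →
    Ex (stepD ν R s) (fun s' => (ZZ s' : ℝ≥0∞)) = ZZ s + ind (Proc R) s

/-- **Piece ONE.** One-step inequalities for the functions of `yy`. -/
def S_ONE : Prop :=
  ∀ (ν : PMF ℕ) (σ2 M : ℝ) (R : ℕ) (s : St) (t : ℝ), Off ν σ2 M → Good s →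
    Ex (stepD ν R s) (fun s' => (yy s' : ℝ≥0∞)) = yy s ∧
    Ex (stepD ν R s) (fun s' => ENNReal.ofReal (((yy s' : ℝ) - t) ^ 2)) =
      ENNReal.ofReal (((yy s : ℝ) - t) ^ 2) + ENNReal.ofReal σ2 * ind (Proc R) s ∧
    Ex (stepD ν R s) (fun s' => ENNReal.ofReal (((yy s' : ℝ) - t) ^ 4)) ≤
      ENNReal.ofReal (((yy s : ℝ) - t) ^ 4) +
        ENNReal.ofReal (10 * M) * (ENNReal.ofReal (((yy s : ℝ) - t) ^ 2) + 1) * ind (Proc R) s

/-- **Piece TWO.** One-step inequalities for the functions with `VV`. -/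
def S_TWO : Prop :=
  ∀ (ν : PMF ℕ) (σ2 M : ℝ) (R : ℕ) (s : St) (t : ℝ), Off ν σ2 M → Good s →
    Ex (stepD ν R s) (fun s' => (VV R s' : ℝ≥0∞)) + ind (Proc R) s ≤ VV R s ∧
    Ex (stepD ν R s) (fun s' => (yy s' : ℝ≥0∞) * (VV R s' : ℝ≥0∞)) + yy s * ind (Proc R) s ≤
      (yy s : ℝ≥0∞) * VV R s + ENNReal.ofReal (M * (R + 1) ^ 2) * ind (Proc R) s ∧
    Ex (stepD ν R s) (fun s' => ENNReal.ofReal (((yy s' : ℝ) - t) ^ 2) * (VV R s' : ℝ≥0∞)) +
        ENNReal.ofReal (((yy s : ℝ) - t) ^ 2 / 2) * ind (Proc R) s ≤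
      ENNReal.ofReal (((yy s : ℝ) - t) ^ 2) * VV R s +
        (ENNReal.ofReal M * VV R s + ENNReal.ofReal (4 * M ^ 2 * (R + 1) ^ 4)) *
          ind (Proc R) s

/-- Expected number of branching events among the first `n` events of the stopped process. -/
noncomputable def EN (ν : PMF ℕ) (R T n : ℕ) : ℝ≥0∞ :=
  ∑ u ∈ range n, Ex (law (stepD ν R) T u) (ind (Proc R))

/-- Conclusion of the piece SUM. -/
def C_SUM : Prop :=
  ∀ (ν : PMF ℕ) (σ2 M : ℝ) (R T n : ℕ), Off ν σ2 M → 1 ≤ T → (R + 1) ^ 2 ≤ T →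
    Ex (law (stepD ν R) T n) (fun s => (yy s : ℝ≥0∞)) = T ∧
    EN ν R T n ≤ T * (R + 1) ^ 2 ∧
    Ex (law (stepD ν R) T n) (fun s => ENNReal.ofReal (((yy s : ℝ) - T) ^ 2)) =
      ENNReal.ofReal σ2 * EN ν R T n ∧
    Ex (law (stepD ν R) T n) (fun s => ENNReal.ofReal (((yy s : ℝ) - T) ^ 4)) ≤
      ENNReal.ofReal (130 * M ^ 3 * T ^ 2 * (R + 1) ^ 4) ∧
    Ex (law (stepD ν R) T n) (fun s => (ZZ s : ℝ≥0∞)) = EN ν R T n

/-- **Piece SUM.** Summation of the one-step inequalities. -/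
def S_SUM : Prop := S_INV → S_GZ → S_ONE → S_TWO → C_SUM

/-- The first two parts hold without `(R + 1) ^ 2 ≤ T`. -/
def C_SUM0 : Prop :=
  ∀ (ν : PMF ℕ) (σ2 M : ℝ) (R T n : ℕ), Off ν σ2 M → 1 ≤ T →
    Ex (law (stepD ν R) T n) (fun s => (yy s : ℝ≥0∞)) = T ∧
    EN ν R T n ≤ T * (R + 1) ^ 2

/-- **Piece SUM0.** -/
def S_SUM0 : Prop := S_INV → S_ONE → S_TWO → C_SUM0

/-- **Piece AC.** Anti-concentration from second and fourth moments. -/
def S_AC : Prop :=
  ∀ (α : Type) (p : PMF α) (y : α → ℕ) (T : ℕ) (s2 B : ℝ), 0 < s2 → 0 < B →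
    Ex p (fun a => (y a : ℝ≥0∞)) = T →
    ENNReal.ofReal s2 ≤ Ex p (fun a => ENNReal.ofReal (((y a : ℝ) - T) ^ 2)) →
    Ex p (fun a => ENNReal.ofReal (((y a : ℝ) - T) ^ 4)) ≤ ENNReal.ofReal B →
    ENNReal.ofReal (s2 ^ 2 / (16 * B)) ≤
        Ex p (ind fun a => (T : ℝ) + s2 * Real.sqrt (s2 / B) / 4 ≤ y a) ∧
      ENNReal.ofReal (s2 ^ 2 / (16 * B)) ≤
        Ex p (ind fun a => (y a : ℝ) ≤ T - s2 * Real.sqrt (s2 / B) / 4)

/-- **Piece BALL.** Lattice points in balls. -/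
def S_BALL : Prop :=
  (∀ (ρ : ℝ) (A : Finset V), 0 ≤ ρ → (∀ z ∈ A, nrm z < ρ) →
    (A.card : ℝ) ≤ 4 * Real.pi / 3 * (ρ + 1) ^ 3) ∧
  (∀ (ρ : ℝ) (A : Finset V), 1 ≤ ρ → (∀ z, nrm z < ρ → z ∈ A) →
    4 * Real.pi / 3 * (ρ - 1) ^ 3 ≤ (A.card : ℝ))

/-- **Piece MOM.** Many distinct sites have a large sum of squared norms. -/
def S_MOM : Prop :=
  ∀ A : Finset V, 16 ≤ A.card → (A.card : ℝ) ^ ((5 : ℝ) / 3) / 64 ≤ ∑ z ∈ A, (nsq z : ℝ)

/-- **Piece REL.** The process and the stopped process agree as long as the aggregate is in the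
ball; monotonicity in the number of events. -/
def S_REL : Prop :=
  ∀ (ν : PMF ℕ) (R T : ℕ),
    (∀ (n : ℕ) (g : St → ℝ≥0∞),
      Ex (law (step ν) T n) (fun s => ind (In R) s * g s) =
        Ex (law (stepD ν R) T n) (fun s => ind (In R) s * g s)) ∧
    Monotone (fun n => Ex (law (step ν) T n) (ind fun s => ¬ In R s)) ∧
    (∀ G : Finset V → Prop,
      Monotone fun n => Ex (law (step ν) T n) (ind fun s => Fin' s ∧ G s.A))

/-- Conclusion of the piece TERM. -/
def C_TERM : Prop :=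
  ∀ (ν : PMF ℕ) (σ2 M : ℝ) (T : ℕ), Off ν σ2 M → 1 ≤ T →
    (∀ (R : ℕ) (ε : ℝ), 0 < ε → ∃ n₀ : ℕ, ∀ n, n₀ ≤ n →
      Ex (law (stepD ν R) T n) (ind fun s => In R s ∧ ¬ Fin' s) ≤ ENNReal.ofReal ε) ∧
    prob ν T (fun _ => True) = 1 ∧
    (∀ (G : Finset V → Prop) (R n : ℕ), (∀ s : St, ¬ In R s → G s.A) →
      Ex (law (step ν) T n) (ind fun s => ¬ In R s) ≤ prob ν T G)

/-- **Piece TERM.** The stopped process stops, and all launches end. -/
def S_TERM : Prop := S_INV → C_SUM0 → S_REL → C_TERM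

/-- **Piece FIN.** -/
def S_FIN : Prop := S_OFF → S_INV → C_SUM → S_AC → S_BALL → S_MOM → S_REL → C_TERM → S_MAIN

end Pool.Agent.K1H53.BI
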