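import Pool.Agent.K1H53.BI.Fin
import Pool.Agent.K1H74.BI.Inv
import Pool.Agent.K1H99.BI.Off
import Pool.Agent.K1H39.BI.Gen
import Pool.Agent.K1H10.BI.GZ
import Pool.Agent.K1H1.BI.One
import Pool.Agent.K1H38.BI.Two
import Pool.Agent.K1H63.BI.SumP
import Pool.Agent.K1H28.BI.AC
import Pool.Agent.K1H93.BI.Ball
import Pool.Agent.K1H24.BI.Mom
import Pool.Agent.K1H1.BI.Rel
import Pool.Agent.K1H11.BI.Term

/-!
# Assembly of the first part
-/

set_option autoImplicit false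

open scoped ENNReal
open Finset

namespace Pool.Agent.K1H53.BI

theorem c_one : S_ONE := Pool.Agent.K1H1.BI.t_ONE Pool.Agent.K1H39.BI.t_GEN

theorem c_two : S_TWO := Pool.Agent.K1H38.BI.t_TWO Pool.Agent.K1H39.BI.t_GEN

theorem c_sum : C_SUM :=
  Pool.Agent.K1H63.BI.t_SUM Pool.Agent.K1H74.BI.t_INV Pool.Agent.K1H10.BI.t_GZ c_one c_two

theorem c_sum0 : C_SUM0 := Pool.Agent.K1H63.BI.t_SUM0 Pool.Agent.K1H74.BI.t_INV c_one c_two

theorem c_term : C_TERM :=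
  Pool.Agent.K1H11.BI.t_TERM Pool.Agent.K1H74.BI.t_INV c_sum0 Pool.Agent.K1H1.BI.t_REL

theorem main : S_MAIN :=
  fin Pool.Agent.K1H99.BI.t_OFF Pool.Agent.K1H74.BI.t_INV c_sum Pool.Agent.K1H28.BI.t_AC
    Pool.Agent.K1H93.BI.t_BALL Pool.Agent.K1H24.BI.t_MOM Pool.Agent.K1H1.BI.t_REL c_term

end Pool.Agent.K1H53.BI
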