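import Pool.Agent.K1H53.BI.Main
import Pool.Agent.K1H53.BI.FinF
import Pool.Agent.K1H11.BI.Com
import Pool.Agent.K1H96.BI.Qs
import Pool.Agent.K1H99.BI.QI
import Pool.Agent.K1H21.BI.Abel
import Pool.Agent.K1H28.BI.GenF
import Pool.Agent.K1H26.BI2.OneTwo
import Pool.Agent.K1H67.BI.SumF
import Pool.Agent.K1H3.BI.Termf
import Pool.Agent.K1H31.BI.Harm
import Pool.Agent.K1H45.BI.Mark
import Pool.Agent.K1H80.BI.Invf
import Pool.Agent.K1H61.BI.Uu
import Pool.Agent.K1H60.BI.SB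
import Pool.Agent.K1H58.BI.Aug
import Pool.Agent.K1H24.BI.Zv
import Pool.Agent.K1H1.BI.HZ
import Pool.Agent.K1H13.BI.Fin3
import Pool.Agent.K1H29.BI.Mkv
import Pool.Agent.K1H92.BI.Cyl
import Pool.Agent.K1H80.BI.Io
import Pool.Agent.K1H1.BI.EX

/-!
# Assembly of the second part
-/

set_option autoImplicit false

open scoped ENNReal
open Finset

namespace Pool.Agent.K1H53.BI

theorem c_com : S_COM := Pool.Agent.K1H11.BI2.t_COM

theorem c_qs : C_QS := Pool.Agent.K1H96.BI.t_QS c_com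

theorem c_qi : C_QI := Pool.Agent.K1H99.BI.t_QI c_com c_qs

theorem c_qp : S_QP := Pool.Agent.K1H21.BI.t_QP

theorem c_abel : C_ABEL := Pool.Agent.K1H21.BI.t_ABEL c_qs c_qi c_qp

theorem c_abf : C_ABF := Pool.Agent.K1H21.BI.t_ABF c_abel

theorem c_sumf : C_SUMF :=
  Pool.Agent.K1H67.BI.t_SUMF Pool.Agent.K1H28.BI.t_GZF
    (Pool.Agent.K1H26.BI2.t_ONEF Pool.Agent.K1H28.BI.t_GENF)
    (Pool.Agent.K1H26.BI2.t_TWOF Pool.Agent.K1H28.BI.t_GENF)

theorem c_termf : C_TERMF := Pool.Agent.K1H3.BI.t_TERMF c_sumf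

theorem c_invf : S_INVF := Pool.Agent.K1H80.BI.t_INVF

/-- Both deviations are at least `c √r` with probability at least `c`, from every initial
aggregate. -/
theorem c_finf : C_FINF :=
  finF Pool.Agent.K1H99.BI.t_OFF c_sumf c_termf Pool.Agent.K1H28.BI.t_AC
    Pool.Agent.K1H93.BI.t_BALL Pool.Agent.K1H24.BI.t_MOM c_abf Pool.Agent.K1H31.BI53.t_HARM
    (Pool.Agent.K1H45.BI.t_MARK c_invf) c_invf

/-- The larger deviation is at least `η √r` with probability at least `1 - ε`. -/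
theorem c_fin3 : C_FIN3 :=
  Pool.Agent.K1H13.BI3.t_FIN3 Pool.Agent.K1H99.BI.t_OFF Pool.Agent.K1H1.BI.t_REL c_invf c_term
    Pool.Agent.K1H61.BI.t_UU (Pool.Agent.K1H58.BI.t_SBU Pool.Agent.K1H60.BI3.t_SB)
    Pool.Agent.K1H58.BI.t_AUG
    (Pool.Agent.K1H58.BI.t_UST Pool.Agent.K1H74.BI.t_INV Pool.Agent.K1H39.BI.t_GEN
      Pool.Agent.K1H61.BI.t_UU Pool.Agent.K1H58.BI.t_AUG)
    (Pool.Agent.K1H24.BI.t_NV c_sum0 Pool.Agent.K1H24.BI.t_ZV Pool.Agent.K1H58.BI.t_AUG)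
    (Pool.Agent.K1H1.BI.t_HZ Pool.Agent.K1H93.BI.t_BALL Pool.Agent.K1H24.BI.t_MOM)

theorem c_mkv : S_MKV := Pool.Agent.K1H29.BI.Mkv.t_MKV c_qp

theorem c_cyl : C_CYL := Pool.Agent.K1H92.BI53.t_CYL c_mkv

/-- Almost surely both deviations are infinitely often at least `c √r`. -/
theorem c_io : C_IO := Pool.Agent.K1H80.BI.t_IO c_finf c_cyl c_invf

theorem c_ex : C_EX := Pool.Agent.K1H1.BI.t_EX c_mkv

/-- Finiteness of all launches, from every time. -/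
theorem law_run (ν : PMF ℕ) (T n : ℕ) :
    law (step ν) T n = run (step ν) ⟨{0}, [], T - 1⟩ n := by
  induction n with
  | zero => rfl
  | succ n ih =>
    show (law (step ν) T n).bind (step ν) = (run (step ν) ⟨{0}, [], T - 1⟩ n).bind (step ν)
    rw [ih]

theorem prob_Phi (ν : PMF ℕ) (T : ℕ) (G : Finset V → Prop) :
    prob ν T G = Phi ν G ⟨{0}, [], T - 1⟩ := by
  unfold prob Phi
  simp only [law_run]

theorem phi_true (ν : PMF ℕ) (hν : CondH ν) (n : ℕ) :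
    Phi ν (fun _ => True) ⟨{0}, [], n⟩ = 1 := by
  obtain ⟨σ2, M, hoff⟩ := Pool.Agent.K1H99.BI.t_OFF ν hν
  have h := (c_term ν σ2 M (n + 1) hoff (Nat.succ_le_succ (Nat.zero_le n))).2.1
  rw [prob_Phi] at h
  simpa using h

end Pool.Agent.K1H53.BI
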