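import Pool.Agent.K1H53.BI.Plan2

/-!
# Upper bound for the inner deviation: discrete potential theory in the ball
-/

set_option autoImplicit false

open scoped ENNReal
open Finset

namespace Pool.Agent.K1H53.BI

/-- Average over the six neighbours. -/
noncomputable def av (f : V → ℝ) (x : V) : ℝ := (∑ e : Fin 3 × Bool, f (x + dir e)) / 6

/-- The lattice points of the closed ball of radius `R`. -/
noncomputable def BR (R : ℕ) : Finset V :=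
  (Finset.Icc (fun _ : Fin 3 => -(R : ℤ)) (fun _ => (R : ℤ))).filter fun x => nsq x ≤ R ^ 2

theorem mem_BR {R : ℕ} {x : V} : x ∈ BR R ↔ nsq x ≤ R ^ 2 := by
  unfold BR
  rw [Finset.mem_filter]
  refine ⟨fun h => h.2, fun h => ⟨?_, h⟩⟩
  rw [Finset.mem_Icc]
  have hi : ∀ i, |x i| ≤ (R : ℤ) := by
    intro i
    have h1 : (x i).natAbs ^ 2 ≤ nsq x := by
      unfold nsq
      exact Finset.single_le_sum (f := fun i => (x i).natAbs ^ 2) (fun _ _ => Nat.zero_le _)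
        (Finset.mem_univ i)
    have h2 : (x i).natAbs ≤ R := by
      have := h1.trans h
      exact (Nat.pow_le_pow_iff_left (by norm_num)).1 this
    rw [Int.abs_eq_natAbs]
    exact_mod_cast h2
  exact ⟨fun i => (abs_le.1 (hi i)).1, fun i => (abs_le.1 (hi i)).2⟩

/-- Green function of simple random walk killed outside the ball. -/
structure IsGreen (R : ℕ) (G : V → V → ℝ) : Prop where
  nonneg : ∀ x y, 0 ≤ G x y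
  symm : ∀ x y, G x y = G y x
  out : ∀ x y, R ^ 2 < nsq x → G x y = 0
  eq : ∀ x y, nsq x ≤ R ^ 2 → nsq y ≤ R ^ 2 →
    av (fun x' => G x' y) x = G x y - if x = y then 1 else 0

/-- **Piece MAXP.** Minimum principle on finite sets. -/
def S_MAXP : Prop :=
  ∀ (Λ : Finset V) (f : V → ℝ), (∀ x ∈ Λ, av f x ≤ f x) →
    (∀ x ∈ Λ, ∀ e, x + dir e ∉ Λ → 0 ≤ f (x + dir e)) → ∀ x ∈ Λ, 0 ≤ f x

/-- **Piece GREEN.** -/
def S_GREEN : Prop := S_MAXP → ∀ R : ℕ, ∃ G : V → V → ℝ, IsGreen R G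

/-- Comparison with superharmonic functions; the expected exit time. -/
def C_POT : Prop :=
  ∀ (R : ℕ) (G : V → V → ℝ), IsGreen R G →
    (∀ (ρ f : V → ℝ), (∀ y ∈ BR R, ρ y ≤ f y - av f y) →
      (∀ x, R ^ 2 < nsq x → nsq x ≤ (R + 1) ^ 2 → 0 ≤ f x) →
      ∀ x ∈ BR R, ∑ y ∈ BR R, G x y * ρ y ≤ f x) ∧
    (∀ x ∈ BR R, ∑ y ∈ BR R, G x y ≤ ((R : ℝ) + 1) ^ 2 - nsq x)

/-- **Piece POT.** -/
def S_POT : Prop := S_MAXP → C_POT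

/-- The explicit function. -/
noncomputable def qf (x : V) : ℝ := 1 / Real.sqrt (nsq x + 20)

/-- Minus its Laplacian. -/
noncomputable def lam (x : V) : ℝ := qf x - av qf x

/-- **Piece Q.** -/
def S_Q : Prop :=
  ∃ C : ℝ, 0 < C ∧ (∀ x, 0 ≤ lam x) ∧ 0 < lam 0 ∧
    ∀ x, lam x ≤ C / (((nsq x : ℝ) + 1) ^ 2 * Real.sqrt (nsq x + 1))

/-- Bound by the Green function of the lattice. -/
def C_GU : Prop :=
  ∃ C : ℝ, 0 < C ∧ ∀ (R : ℕ) (G : V → V → ℝ), IsGreen R G →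
    ∀ x y, G x y ≤ C / Real.sqrt (nsq (x - y) + 1)

/-- **Piece GU.** -/
def S_GU : Prop := C_POT → S_Q → C_GU

/-- **Piece FLUX.** -/
def S_FLUX : Prop :=
  ∀ R : ℕ, 2 ≤ R → ∑ x ∈ BR R, lam x ≤ ((BR R).card : ℝ) / (2 * ((R : ℝ) - 1) ^ 3)

/-- **Piece GRAD.** Gradient estimate for harmonic functions. -/
def S_GRAD : Prop :=
  ∃ C : ℝ, 0 < C ∧ ∀ (n : ℕ) (y₀ : V) (S : ℝ) (g : V → ℝ) (e : Fin 3 × Bool), 1 ≤ n →
    (∀ x, nsq (x - y₀) ≤ n ^ 2 → av g x = g x) →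
    (∀ x, nsq (x - y₀) ≤ (n + 1) ^ 2 → 0 ≤ g x ∧ g x ≤ S) →
    |g (y₀ + dir e) - g y₀| ≤ C * S / n

/-- Green function between the bulk and a point near the boundary. -/
def C_U1 : Prop :=
  ∃ (C : ℝ) (R₀ : ℕ), 0 < C ∧ ∀ (R : ℕ) (G : V → V → ℝ) (z x : V), R₀ ≤ R → IsGreen R G →
    nsq z ≤ R ^ 2 → R ^ 2 ≤ 4 * nsq z → 16 * nsq x ≤ R ^ 2 →
      G z x ≤ C * ((R : ℝ) + 1 - nrm z) / (R : ℝ) ^ 2

/-- **Piece U1.** -/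
def S_U1 : Prop := S_MAXP → S_Q → C_GU → C_U1

/-- Green function with the pole near the boundary. -/
def C_U3 : Prop :=
  ∃ C : ℝ, 0 < C ∧ ∀ (R : ℕ) (G : V → V → ℝ) (z x : V), 1 ≤ R → IsGreen R G →
    nsq z ≤ R ^ 2 → G x z ≤ C * ((R : ℝ) + 1 - nrm z) / ((nsq (x - z) : ℝ) + 1)

/-- **Piece U3.** -/
def S_U3 : Prop := S_MAXP → C_GU → C_U3

/-- **Piece L1.** -/
def S_L1 : Prop :=
  ∃ C : ℝ, 0 < C ∧ ∀ R : ℕ, ∑ y ∈ BR R, 1 / ((nsq y : ℝ) + 1) ^ 2 ≤ C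

/-- The smearing error. -/
def C_ERR : Prop :=
  ∃ (C : ℝ) (R₀ : ℕ), 0 < C ∧ ∀ (R : ℕ) (G : V → V → ℝ) (z : V), R₀ ≤ R → IsGreen R G →
    nsq z ≤ R ^ 2 → R ^ 2 ≤ 4 * nsq z →
      ∑ y ∈ BR R, lam y * |G z y - G z 0| ≤ C * ((R : ℝ) + 1 - nrm z) / (R : ℝ) ^ 3

/-- **Piece ERR.** -/
def S_ERR : Prop := C_POT → S_Q → S_GRAD → C_U1 → S_L1 → C_ERR

/-- Lower bound for the odometer. -/
def C_SL : Prop :=
  ∃ C : ℝ, 0 < C ∧ ∀ (R T : ℕ) (δ : ℝ) (G : V → V → ℝ) (z : V), IsGreen R G →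
    C ≤ δ → C * R ≤ δ ^ 2 → C * δ ≤ R → 4 * Real.pi / 3 * ((R : ℝ) + δ) ^ 3 ≤ T →
    nrm z + δ ≤ R →
      δ * ((R : ℝ) + 1 - nrm z) ≤ T * G 0 z - ∑ y ∈ BR R, G y z

/-- **Piece SL.** -/
def S_SL : Prop := S_MAXP → C_POT → S_Q → S_FLUX → S_BALL → C_ERR → C_SL

/-- Density of the squared Green function. -/
noncomputable def kap (H : ℝ) (D : ℝ) : ℝ := min (1 / D) (H ^ 2 / D ^ 2)

/-- Lattice sums; `H = R + 1 - |z|`, `D = |y - z|² + 1`. -/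
def C_LS : Prop :=
  ∃ (C : ℝ) (R₀ : ℕ), 0 < C ∧ ∀ (R : ℕ) (G : V → V → ℝ) (z : V), R₀ ≤ R → IsGreen R G →
    nsq z ≤ R ^ 2 →
      (∀ x ∈ BR R, ∑ y ∈ BR R, G x y * kap ((R : ℝ) + 1 - nrm z) ((nsq (y - z) : ℝ) + 1) ≤
        C * (1 + Real.log R) *
          min 1 (((R : ℝ) + 1 - nrm z) / Real.sqrt ((nsq (x - z) : ℝ) + 1))) ∧
      (∀ x ∈ BR R, ∑ y ∈ BR R, G x y *
          min 1 (((R : ℝ) + 1 - nrm z) ^ 2 / ((nsq (y - z) : ℝ) + 1)) ≤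
        C * (1 + Real.log R) * ((R : ℝ) + 1 - nrm z) ^ 2) ∧
      ∑ y ∈ BR R, G 0 y * kap ((R : ℝ) + 1 - nrm z) ((nsq (y - z) : ℝ) + 1) ≤
        C * (1 + Real.log R) * ((R : ℝ) + 1 - nrm z) ^ 2 / (R : ℝ) ^ 2

/-- **Piece LS.** -/
def S_LS : Prop := C_POT → C_GU → C_U1 → C_LS

/-- The function which controls the quadratic variation. -/
def C_WB : Prop :=
  ∀ C₄ : ℝ, 0 < C₄ → ∃ (C : ℝ) (R₀ : ℕ), 0 < C ∧
    ∀ (R : ℕ) (G : V → V → ℝ) (z : V) (θ : ℝ), R₀ ≤ R → IsGreen R G → nsq z ≤ R ^ 2 → 0 < θ →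
      C * θ * (1 + Real.log R) * R ≤ 1 →
      ∃ w : V → ℝ, (∀ x, 0 ≤ w x) ∧ (∀ x, w x ≤ C * (1 + Real.log R)) ∧
        (∀ x, R ^ 2 < nsq x → w x = 0) ∧
        (∀ x ∈ BR R, C₄ * (av (fun y => (G y z) ^ 2) x + θ ^ 2 * av (fun y => (w y) ^ 2) x) ≤
          w x - av w x) ∧
        w 0 ≤ C * (1 + Real.log R) ^ 2 * ((R : ℝ) + 1 - nrm z) ^ 2 / (R : ℝ) ^ 2

/-- **Piece WB.** -/
def S_WB : Prop := C_POT → C_GU → C_U3 → C_LS → C_WB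

/-- **Piece LAPL.** Laplace transform of the offspring law. -/
def S_LAPL : Prop :=
  ∀ ν : PMF ℕ, CondH ν → ∃ u₀ C₂ : ℝ, 0 < u₀ ∧ 0 < C₂ ∧ ∀ u : ℝ, |u| ≤ u₀ →
    Ex ν (fun k => ENNReal.ofReal (Real.exp (u * k))) ≤ ENNReal.ofReal (1 + u + C₂ * u ^ 2)

/-- The exponential estimate. -/
def C_EXPO : Prop :=
  ∀ ν : PMF ℕ, CondH ν → ∃ C₄ θ₀ : ℝ, 0 < C₄ ∧ 0 < θ₀ ∧
    ∀ (R T n : ℕ) (G : V → V → ℝ) (z : V) (w : V → ℝ) (θ : ℝ), IsGreen R G → nsq z ≤ R ^ 2 →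
      0 < θ → 1 ≤ T → (∀ x, θ * G x z ≤ θ₀) → (∀ x, θ ^ 2 * w x ≤ θ₀) →
      (∀ x, 0 ≤ w x) → (∀ x, R ^ 2 < nsq x → w x = 0) →
      (∀ x ∈ BR R, C₄ * (av (fun y => (G y z) ^ 2) x + θ ^ 2 * av (fun y => (w y) ^ 2) x) ≤
          w x - av w x) →
      Ex (run (stepF ν R) ⟨{0}, [], T - 1⟩ n) (ind fun s => z ∉ s.A ∧ Froz R s) ≤
        ENNReal.ofReal (Real.exp
          (-θ * (T * G 0 z - ∑ y ∈ BR R, G y z) + θ ^ 2 * (T * w 0)))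

/-- **Piece EXPO.** -/
def S_EXPO : Prop := S_LAPL → S_INVF → C_EXPO

/-- The upper bound for the inner deviation. -/
def C_UP : Prop :=
  ∀ ν : PMF ℕ, CondH ν → ∃ (C : ℝ) (T₀ : ℕ), 0 < C ∧ ∀ T : ℕ, T₀ ≤ T →
    Phi ν (fun A => ¬ devI T A ≤ C * Real.sqrt (rad T) * Real.log (rad T) ^ 2)
      ⟨{0}, [], T - 1⟩ ≤ ENNReal.ofReal (1 / (T : ℝ) ^ 2)

/-- **Piece UP.** -/
def S_UP : Prop :=
  S_OFF → C_TERMF → C_ABF → S_INVF → (∀ R : ℕ, ∃ G : V → V → ℝ, IsGreen R G) → C_GU → C_SL →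
    C_WB → C_EXPO → C_UP

end Pool.Agent.K1H53.BI
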