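import Pool.Agent.K1H53.BI.Plan4
import Pool.Agent.K1H53.BI.Plan5

/-!
# The upper bound for the inner deviation, almost surely eventually
-/

set_option autoImplicit false

open scoped ENNReal
open Finset MeasureTheory Filter

namespace Pool.Agent.K1H53.BI

/-- Almost surely the inner deviation is eventually at most `C √r (log r)²`. -/
def C_BC : Prop :=
  ∀ ν : PMF ℕ, CondH ν → ∃ C : ℝ, 0 < C ∧
    ∀ (Ω : Type) (_ : MeasurableSpace Ω) (P : Measure Ω) (X : ℕ → Ω → Finset V),
      IsBIDLA ν P X → ∀ᵐ ω ∂P, ∀ᶠ t in atTop,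
        devI t (X t ω) ≤ C * Real.sqrt (rad t) * Real.log (rad t) ^ 2

/-- **Piece BC.** -/
def S_BC : Prop := C_UP → C_CYL → C_BC

end Pool.Agent.K1H53.BI
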