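import Pool.Agent.K1H53.BI.Main2
import Pool.Agent.K1H53.BI.Plan6
import Pool.Agent.K1H83.BI3.Green
import Pool.Agent.K1H68.BI3.Pot
import Pool.Agent.K1H89.BI3.Q
import Pool.Agent.K1H4.BI3.Flux
import Pool.Agent.K1H37.BI3.Grad
import Pool.Agent.K1H78.BI3.U1
import Pool.Agent.K1H96.BI3.U3
import Pool.Agent.K1H6.BI3.L1
import Pool.Agent.K1H6.BI3.ERR
import Pool.Agent.K1H11.BI5.Sl
import Pool.Agent.K1H36.BI3.LS
import Pool.Agent.K1H8.BI3.WB
import Pool.Agent.K1H99.BI5.Lapl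
import Pool.Agent.K1H26.BI3.Expo
import Pool.Agent.K1H13.BI3.Up
import Pool.Agent.K1H18.BI3.Bc

/-!
# Assembly of the third part: upper bound for the inner deviation
-/

set_option autoImplicit false

open scoped ENNReal
open Finset

namespace Pool.Agent.K1H53.BI

theorem c_maxp : S_MAXP := Pool.Agent.K1H83.BI5.t_MAXP

theorem c_green : ∀ R : ℕ, ∃ G : V → V → ℝ, IsGreen R G := Pool.Agent.K1H83.BI5.t_GREEN c_maxp

theorem c_pot : C_POT := Pool.Agent.K1H68.BI5.t_POT c_maxp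

theorem c_q : S_Q := Pool.Agent.K1H89.BI5.t_Q

theorem c_gu : C_GU := Pool.Agent.K1H68.BI5.t_GU c_pot c_q

theorem c_u1 : C_U1 := Pool.Agent.K1H78.BI5.t_U1 c_maxp c_q c_gu

theorem c_u3 : C_U3 := Pool.Agent.K1H96.BI5.t_U3 c_maxp c_gu

theorem c_err : C_ERR :=
  Pool.Agent.K1H6.BI5.t_ERR c_pot c_q (Pool.Agent.K1H37.BI5.t_GRAD c_maxp) c_u1
    Pool.Agent.K1H6.BI5.t_L1

theorem c_sl : C_SL :=
  Pool.Agent.K1H11.BI5.t_SL c_maxp c_pot c_q Pool.Agent.K1H4.BI5.t_FLUX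
    Pool.Agent.K1H93.BI.t_BALL c_err

theorem c_ls : C_LS := Pool.Agent.K1H36.BI3.t_LS c_pot c_gu c_u1

theorem c_wb : C_WB := Pool.Agent.K1H8.BI5.t_WB c_pot c_gu c_u3 c_ls

theorem c_expo : C_EXPO := Pool.Agent.K1H26.BI5.t_EXPO Pool.Agent.K1H99.BI5.t_LAPL c_invf

/-- The inner deviation at time `T` is at most `C √r (log r)²` with probability `≥ 1 - T⁻²`. -/
theorem c_up : C_UP :=
  Pool.Agent.K1H13.BI5.t_UP Pool.Agent.K1H99.BI.t_OFF c_termf c_abf c_invf c_green c_gu c_sl c_wb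
    c_expo

theorem c_bc : C_BC := Pool.Agent.K1H18.BI5.t_BC c_up c_cyl

end Pool.Agent.K1H53.BI
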