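import Pool.Agent.K1H53.BI.Plan2

/-!
# Small ball probabilities
-/

set_option autoImplicit false

open scoped ENNReal
open Finset

namespace Pool.Agent.K1H53.BI

/-- The law of the sum of `j` independent offspring numbers. -/
noncomputable def walk (ν : PMF ℕ) : ℕ → PMF ℕ
  | 0 => PMF.pure 0
  | j + 1 => ν.bind fun k => (walk ν j).bind fun S => PMF.pure (k + S)

open Classical in
/-- Probability that the mass `y` is within `a` of `T` after `j` further branching events. -/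
noncomputable def uu (ν : PMF ℕ) (T : ℕ) (a : ℝ) (j y : ℕ) : ℝ≥0∞ :=
  Ex (walk ν j) (ind fun S => |((y : ℝ) + S - j) - T| ≤ a)

/-- **Piece UU.** -/
def S_UU : Prop :=
  ∀ (ν : PMF ℕ) (σ2 M : ℝ), Off ν σ2 M →
    (∀ (T : ℕ) (a : ℝ) (j y : ℕ), 1 ≤ y →
      uu ν T a (j + 1) y = Ex ν (fun k => uu ν T a j (y - 1 + k))) ∧
    (∀ (T : ℕ) (a ε : ℝ) (j y : ℕ), 0 < a → 0 < ε → |(y : ℝ) - T| ≤ a / 2 →
      σ2 * j ≤ ε * a ^ 2 / 4 → ENNReal.ofReal (1 - ε) ≤ uu ν T a j y)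

/-- **Piece SB.** Local bound for sums of independent variables. -/
def S_SB : Prop :=
  ∀ (ν : PMF ℕ) (σ2 M : ℝ), Off ν σ2 M → ∃ C : ℝ, 0 < C ∧ ∀ n x : ℕ, 1 ≤ n →
    walk ν n x ≤ ENNReal.ofReal (C / Real.sqrt n)

/-- Conclusion of the piece SBU. -/
def C_SBU : Prop :=
  ∀ (ν : PMF ℕ) (σ2 M : ℝ), Off ν σ2 M → ∃ C : ℝ, 0 < C ∧
    ∀ (T : ℕ) (a : ℝ) (n y : ℕ), 1 ≤ n → 1 ≤ a →
      uu ν T a n y ≤ ENNReal.ofReal (C * a / Real.sqrt n)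

/-- **Piece SBU.** -/
def S_SBU : Prop := S_SB → C_SBU

open Classical in
/-- Number of branching events in the next event of the stopped process. -/
noncomputable def cnt (R : ℕ) (s : St) : ℕ := if Proc R s then 1 else 0

/-- The stopped process with a counter of the branching events. -/
noncomputable def stepN (ν : PMF ℕ) (R : ℕ) (p : St × ℕ) : PMF (St × ℕ) :=
  (stepD ν R p.1).bind fun s' => PMF.pure (s', p.2 + cnt R p.1)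

/-- Its law after `n` events. -/
noncomputable def lawN (ν : PMF ℕ) (R T : ℕ) : ℕ → PMF (St × ℕ)
  | 0 => PMF.pure (⟨{0}, [], T - 1⟩, 0)
  | n + 1 => (lawN ν R T n).bind (stepN ν R)

/-- **Piece AUG.** -/
def S_AUG : Prop :=
  ∀ (ν : PMF ℕ) (R T n : ℕ),
    (∀ g : St → ℝ≥0∞, Ex (lawN ν R T n) (fun p => g p.1) = Ex (law (stepD ν R) T n) g) ∧
    (∀ (F : St × ℕ → ℝ≥0∞) (b : ℝ≥0∞),
      (∀ s N, Good s → Ex (stepD ν R s) (fun s' => F (s', N + cnt R s)) ≤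
        F (s, N) + b * ind (Proc R) s) →
      Ex (lawN ν R T n) F ≤ F (⟨{0}, [], T - 1⟩, 0) + b * EN ν R T n)

/-- The space-time harmonic function. -/
noncomputable def UF (ν : PMF ℕ) (T : ℕ) (a : ℝ) (np : ℕ) (p : St × ℕ) : ℝ≥0∞ :=
  if p.2 ≤ np then uu ν T a (np - p.2) (yy p.1) else 0

/-- Conclusion of the piece UST. -/
def C_UST : Prop :=
  ∀ (ν : PMF ℕ) (σ2 M : ℝ) (R T n np : ℕ) (a : ℝ), Off ν σ2 M → 1 ≤ T →
    Ex (lawN ν R T n) (UF ν T a np) ≤ uu ν T a np T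

/-- **Piece UST.** -/
def S_UST : Prop := S_INV → S_GEN → S_UU → S_AUG → C_UST

/-- **Piece ZV.** One-step variance of `ZZ`. -/
def S_ZV : Prop :=
  ∀ (ν : PMF ℕ) (σ2 M : ℝ) (R : ℕ) (s : St) (t : ℝ), Off ν σ2 M → Good s →
    Ex (stepD ν R s) (fun s' => ENNReal.ofReal (((ZZ s' : ℝ) - (t + cnt R s)) ^ 2)) ≤
      ENNReal.ofReal (((ZZ s : ℝ) - t) ^ 2) +
        ENNReal.ofReal (10 * M * (R + 1) ^ 4) * ind (Proc R) s

/-- Conclusion of the piece NV. -/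
def C_NV : Prop :=
  ∀ (ν : PMF ℕ) (σ2 M : ℝ) (R T n : ℕ), Off ν σ2 M → 1 ≤ T →
    Ex (lawN ν R T n) (fun p => ENNReal.ofReal (((ZZ p.1 : ℝ) - p.2) ^ 2)) ≤
      ENNReal.ofReal (10 * M * T * (R + 1) ^ 6)

/-- **Piece NV.** -/
def S_NV : Prop := C_SUM0 → S_ZV → S_AUG → C_NV

/-- Geometry of an aggregate with small deviations. -/
def C_HZ : Prop :=
  ∀ η : ℝ, 0 < η → η ≤ 1 / 2 → ∃ T₀ : ℕ, ∀ T : ℕ, T₀ ≤ T → ∃ n₁ n₂ : ℕ,
    rad T ^ 5 / 64 ≤ n₁ ∧ (n₂ : ℝ) ≤ n₁ + 480 * (rad T ^ 4 * Real.sqrt (rad T)) ∧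
    ∀ A : Finset V, devI T A < η * Real.sqrt (rad T) → devO T A < η * Real.sqrt (rad T) →
      n₁ ≤ ∑ z ∈ A, nsq z ∧ ∑ z ∈ A, nsq z ≤ n₂ ∧
      |(A.card : ℝ) - T| ≤ 120 * η * (rad T ^ 2 * Real.sqrt (rad T)) ∧
      ∀ z ∈ A, nsq z ≤ ⌈2 * rad T⌉₊ ^ 2

/-- **Piece HZ.** -/
def S_HZ : Prop := S_BALL → S_MOM → C_HZ

/-- The larger deviation is at least `η √r` with probability at least `1 - ε`. -/
def C_FIN3 : Prop :=
  ∀ ν : PMF ℕ, CondH ν → ∀ ε : ℝ, 0 < ε → ∃ (η : ℝ) (T₀ : ℕ), 0 < η ∧ ∀ T : ℕ, T₀ ≤ T →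
    ENNReal.ofReal (1 - ε) ≤ prob ν T
      (fun A => η * Real.sqrt (rad T) ≤ devI T A ∨ η * Real.sqrt (rad T) ≤ devO T A)

/-- **Piece FIN3.** -/
def S_FIN3 : Prop :=
  S_OFF → S_REL → S_INVF → C_TERM → S_UU → C_SBU → S_AUG → C_UST → C_NV → C_HZ → C_FIN3

end Pool.Agent.K1H53.BI
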