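import Pool.Agent.K1H53.BI.Plan2

/-!
# The process at all times
-/

set_option autoImplicit false

open scoped ENNReal
open Finset MeasureTheory Filter

namespace Pool.Agent.K1H53.BI

/-- Transition function: the probability that one launch turns the aggregate `A` into `B`. -/
noncomputable def tr (ν : PMF ℕ) (A B : Finset V) : ℝ≥0∞ := Phi ν (fun C => C = B) ⟨A, [], 1⟩

/-- `X t`, `t ≥ 1`, is branching internal DLA: it starts with `{0}`, and given the past the next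
aggregate is obtained by one launch. -/
structure IsBIDLA (ν : PMF ℕ) {Ω : Type} [MeasurableSpace Ω] (P : Measure Ω)
    (X : ℕ → Ω → Finset V) : Prop where
  prob : IsProbabilityMeasure P
  meas : ∀ (t : ℕ) (B : Finset V), MeasurableSet {ω | X t ω = B}
  start : P {ω | X 1 ω = {0}} = 1
  markov : ∀ (t : ℕ) (a : ℕ → Finset V), 1 ≤ t →
    P {ω | ∀ i, 1 ≤ i → i ≤ t + 1 → X i ω = a i} =
      P {ω | ∀ i, 1 ≤ i → i ≤ t → X i ω = a i} * tr ν (a t) (a (t + 1))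

/-- **Piece MKV.** Markov property at the launches. -/
def S_MKV : Prop :=
  ∀ (ν : PMF ℕ) (G : Finset V → Prop) (A : Finset V) (m j : ℕ),
    Phi ν G ⟨A, [], m + j⟩ = ∑' B, Phi ν (fun C => C = B) ⟨A, [], m⟩ * Phi ν G ⟨B, [], j⟩

/-- Conclusion of the piece CYL. -/
def C_CYL : Prop :=
  ∀ (ν : PMF ℕ) (Ω : Type) (mΩ : MeasurableSpace Ω) (P : Measure Ω) (X : ℕ → Ω → Finset V),
    IsBIDLA ν P X → ∀ (t T : ℕ) (a : ℕ → Finset V) (G : Finset V → Prop), 1 ≤ t → t ≤ T →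
      P {ω | (∀ i, 1 ≤ i → i ≤ t → X i ω = a i) ∧ G (X T ω)} =
        P {ω | ∀ i, 1 ≤ i → i ≤ t → X i ω = a i} * Phi ν G ⟨a t, [], T - t⟩

/-- **Piece CYL.** -/
def S_CYL : Prop := S_MKV → C_CYL

/-- Almost surely both deviations are infinitely often at least `c √r`. -/
def C_IO : Prop :=
  ∀ ν : PMF ℕ, CondH ν → ∃ c : ℝ, 0 < c ∧
    ∀ (Ω : Type) (mΩ : MeasurableSpace Ω) (P : Measure Ω) (X : ℕ → Ω → Finset V),
      IsBIDLA ν P X → ∀ᵐ ω ∂P,
        (∃ᶠ t in atTop, c * Real.sqrt (rad t) ≤ devO t (X t ω)) ∧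
        (∃ᶠ t in atTop, c * Real.sqrt (rad t) ≤ devI t (X t ω))

/-- **Piece IO.** -/
def S_IO : Prop := C_FINF → C_CYL → S_INVF → C_IO

/-- The process exists. -/
def C_EX : Prop :=
  ∀ ν : PMF ℕ, (∀ n : ℕ, Phi ν (fun _ => True) ⟨{0}, [], n⟩ = 1) →
    ∃ (Ω : Type) (_ : MeasurableSpace Ω) (P : Measure Ω) (X : ℕ → Ω → Finset V),
      IsBIDLA ν P X

/-- **Piece EX.** -/
def S_EX : Prop := S_MKV → C_EX

end Pool.Agent.K1H53.BI
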